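import Pool.Agent.Lib_helper60.Sts.Basic

set_option autoImplicit false

namespace Pool.Agent.Lib_helper60.Sts

/-- Data for gluing: `W` indexes ordered collinear triples in `H`, `C` indexes the perfect
matchings of the remaining pairs. -/
structure Glue (H W C : Type*) where
  a : W → H
  b : W → H
  t : W → H
  μ : C → H → H
  swap : ∀ w, ∃ w', a w' = b w ∧ b w' = a w ∧ t w' = t w
  rot : ∀ w, ∃ w', a w' = a w ∧ b w' = t w ∧ t w' = b w
  invol : ∀ c x, μ c (μ c x) = x
  cover : ∀ x y, x = y ∨ (∃ w, a w = x ∧ b w = y) ∨ (∃ c, μ c x = y)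

namespace Glue

variable {H W C : Type*} [Fintype H] [Fintype W] [Fintype C] (D : Glue H W C)

/-- the pair map -/
def pairMap : H ⊕ W ⊕ (C × H) → H × H
  | .inl x => (x, x)
  | .inr (.inl w) => (D.a w, D.b w)
  | .inr (.inr (c, x)) => (x, D.μ c x)

lemma pairMap_surj : Function.Surjective D.pairMap := by
  rintro ⟨x, y⟩
  rcases D.cover x y with rfl | ⟨w, rfl, rfl⟩ | ⟨c, rfl⟩
  · exact ⟨.inl x, rfl⟩
  · exact ⟨.inr (.inl w), rfl⟩
  · exact ⟨.inr (.inr (c, x)), rfl⟩

/-- counting hypothesis -/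
def Counts (H W C : Type*) [Fintype H] [Fintype W] [Fintype C] : Prop :=
  Fintype.card H + (Fintype.card W + Fintype.card C * Fintype.card H)
    = Fintype.card H * Fintype.card H

variable {D} (hc : Counts H W C)
include hc

lemma pairMap_inj : Function.Injective D.pairMap := by
  classical
  have h1 : Function.Bijective D.pairMap := by
    rw [Fintype.bijective_iff_surjective_and_card]
    refine ⟨D.pairMap_surj, ?_⟩
    rw [Fintype.card_sum, Fintype.card_sum, Fintype.card_prod, Fintype.card_prod]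
    exact hc
  exact h1.1

lemma ab_ne (w : W) : D.a w ≠ D.b w := by
  intro h
  have : D.pairMap (.inl (D.a w)) = D.pairMap (.inr (.inl w)) := by
    simp only [pairMap]; rw [← h]
  exact absurd (pairMap_inj hc this) (by simp)

lemma w_inj {w w' : W} (h1 : D.a w = D.a w') (h2 : D.b w = D.b w') : w = w' := by
  have : D.pairMap (.inr (.inl w)) = D.pairMap (.inr (.inl w')) := by
    simp only [pairMap]; rw [h1, h2]
  simpa using pairMap_inj hc this

lemma mu_inj {c c' : C} {x : H} (h : D.μ c x = D.μ c' x) : c = c' := by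
  have : D.pairMap (.inr (.inr (c, x))) = D.pairMap (.inr (.inr (c', x))) := by
    simp only [pairMap]; rw [h]
  simpa using pairMap_inj hc this

lemma mu_ne (c : C) (x : H) : D.μ c x ≠ x := by
  intro h
  have : D.pairMap (.inl x) = D.pairMap (.inr (.inr (c, x))) := by
    simp only [pairMap]; rw [h]
  exact absurd (pairMap_inj hc this) (by simp)

lemma w_ne_mu (w : W) (c : C) : D.μ c (D.a w) ≠ D.b w := by
  intro h
  have : D.pairMap (.inr (.inl w)) = D.pairMap (.inr (.inr (c, D.a w))) := by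
    simp only [pairMap]; rw [h]
  exact absurd (pairMap_inj hc this) (by simp)

end Glue

open Glue in
/-- the glued operation on `F ⊕ H` -/
noncomputable def glueOp {H W C F : Type*} (D : Glue H W C) (opF : F → F → F) (e : C ≃ F) :
    F ⊕ H → F ⊕ H → F ⊕ H := by
  classical
  exact fun u v => match u, v with
    | .inl f, .inl f' => .inl (opF f f')
    | .inl f, .inr x => .inr (D.μ (e.symm f) x)
    | .inr x, .inl f => .inr (D.μ (e.symm f) x)
    | .inr x, .inr y =>
      if x = y then .inr x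
      else if h : ∃ w, D.a w = x ∧ D.b w = y then .inr (D.t h.choose)
      else if h : ∃ c, D.μ c x = y then .inl (e h.choose) else .inr x

section
variable {H W C F : Type*} [Fintype H] [Fintype W] [Fintype C] (D : Glue H W C)
  (hc : Glue.Counts H W C) (opF : F → F → F) (e : C ≃ F)

lemma glueOp_ff (f f' : F) : glueOp D opF e (.inl f) (.inl f') = .inl (opF f f') := rfl

lemma glueOp_fh (f : F) (x : H) : glueOp D opF e (.inl f) (.inr x) = .inr (D.μ (e.symm f) x) := rfl

lemma glueOp_hf (f : F) (x : H) : glueOp D opF e (.inr x) (.inl f) = .inr (D.μ (e.symm f) x) := rfl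

lemma glueOp_self (x : H) : glueOp D opF e (.inr x) (.inr x) = .inr x := by
  simp [glueOp]

include hc

lemma glueOp_w (w : W) :
    glueOp D opF e (.inr (D.a w)) (.inr (D.b w)) = .inr (D.t w) := by
  classical
  have hex : ∃ w', D.a w' = D.a w ∧ D.b w' = D.b w := ⟨w, rfl, rfl⟩
  have h1 := hex.choose_spec
  have h2 : hex.choose = w := Glue.w_inj hc h1.1 h1.2
  have h3 := Glue.ab_ne hc (D := D) w
  simp only [glueOp, if_neg h3, dif_pos hex, h2]

lemma glueOp_mu (c : C) (x : H) :
    glueOp D opF e (.inr x) (.inr (D.μ c x)) = .inl (e c) := by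
  classical
  have hno : ¬ ∃ w, D.a w = x ∧ D.b w = D.μ c x := by
    rintro ⟨w, h1, h2⟩
    apply Glue.w_ne_mu hc w c
    rw [h1, h2]
  have hex : ∃ c', D.μ c' x = D.μ c x := ⟨c, rfl⟩
  have h2 : hex.choose = c := Glue.mu_inj hc hex.choose_spec
  have h3 : x ≠ D.μ c x := fun h => Glue.mu_ne hc c x h.symm
  simp only [glueOp, if_neg h3, dif_neg hno, dif_pos hex, h2]

theorem glue_squag (hF : IsSquag opF) : IsSquag (glueOp D opF e) := by
  refine ⟨?_, ?_, ?_⟩
  · rintro (f | x)
    · rw [glueOp_ff, hF.idem]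
    · rw [glueOp_self]
  · rintro (f | x) (g | y)
    · rw [glueOp_ff, glueOp_ff, hF.comm]
    · rw [glueOp_fh, glueOp_hf]
    · rw [glueOp_fh, glueOp_hf]
    · rcases D.cover x y with rfl | ⟨w, rfl, rfl⟩ | ⟨c, rfl⟩
      · rfl
      · obtain ⟨w', h1, h2, h3⟩ := D.swap w
        rw [glueOp_w D hc, ← h1, ← h2, glueOp_w D hc, h3]
      · rw [glueOp_mu D hc]
        have := glueOp_mu D hc opF e c (D.μ c x)
        rw [D.invol] at this
        rw [this]
  · rintro (f | x) (g | y)
    · rw [glueOp_ff, glueOp_ff, hF.abs]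
    · rw [glueOp_fh, glueOp_fh, D.invol]
    · rw [glueOp_hf, glueOp_mu D hc, e.apply_symm_apply]
    · rcases D.cover x y with rfl | ⟨w, rfl, rfl⟩ | ⟨c, rfl⟩
      · rw [glueOp_self, glueOp_self]
      · obtain ⟨w', h1, h2, h3⟩ := D.rot w
        rw [glueOp_w D hc, ← h1, ← h2, glueOp_w D hc, h3]
      · rw [glueOp_mu D hc, glueOp_hf, e.symm_apply_apply]

/-- Extension of a symmetry of the glue data to an automorphism fixing `F`. -/
theorem glue_aut (σ : H → H)
    (hw : ∀ w, ∃ w', D.a w' = σ (D.a w) ∧ D.b w' = σ (D.b w) ∧ D.t w' = σ (D.t w))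
    (hmu : ∀ c x, σ (D.μ c x) = D.μ c (σ x)) (u v : F ⊕ H) :
    Sum.map id σ (glueOp D opF e u v) = glueOp D opF e (Sum.map id σ u) (Sum.map id σ v) := by
  rcases u with f | x <;> rcases v with g | y
  · rfl
  · simp only [glueOp_fh, Sum.map_inl, Sum.map_inr, id, hmu]
  · simp only [glueOp_hf, Sum.map_inl, Sum.map_inr, id, hmu]
  · rcases D.cover x y with rfl | ⟨w, rfl, rfl⟩ | ⟨c, rfl⟩
    · simp only [glueOp_self, Sum.map_inr]
    · obtain ⟨w', h1, h2, h3⟩ := hw w
      rw [glueOp_w D hc]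
      simp only [Sum.map_inr]
      rw [← h1, ← h2, glueOp_w D hc, h3]
    · rw [glueOp_mu D hc]
      simp only [Sum.map_inr, Sum.map_inl, id, hmu]
      rw [glueOp_mu D hc]

/-- if the product of two points of `H` lies in `H` and they are distinct, they are collinear. -/
lemma glueOp_inr {x y z : H} (hxy : x ≠ y)
    (h : glueOp D opF e (.inr x) (.inr y) = .inr z) : ∃ w, D.a w = x ∧ D.b w = y ∧ D.t w = z := by
  rcases D.cover x y with rfl | ⟨w, rfl, rfl⟩ | ⟨c, rfl⟩
  · exact absurd rfl hxy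
  · rw [glueOp_w D hc] at h
    exact ⟨w, rfl, rfl, Sum.inr.inj h⟩
  · rw [glueOp_mu D hc] at h
    exact absurd h (by simp)

end

end Pool.Agent.Lib_helper60.Sts
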