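import Mathlib

set_option autoImplicit false

namespace Pool.Agent.Lib_helper60.Sts

/-- Steiner quasigroup. -/
structure IsSquag {V : Type*} (op : V → V → V) : Prop where
  idem : ∀ x, op x x = x
  comm : ∀ x y, op x y = op y x
  abs : ∀ x y, op x (op x y) = y

namespace IsSquag

variable {V : Type*} {op : V → V → V} (h : IsSquag op)
include h

lemma ne_left {x y : V} (hxy : x ≠ y) : op x y ≠ x := by
  intro he
  apply hxy
  have := h.abs x y
  rw [he, h.idem] at this
  exact this

lemma ne_right {x y : V} (hxy : x ≠ y) : op x y ≠ y := by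
  rw [h.comm]
  exact h.ne_left hxy.symm

lemma abs' (x y : V) : op y (op x y) = x := by
  rw [h.comm x y]; exact h.abs y x

lemma inj (x : V) : Function.Injective (op x) := fun y z hyz => by
  rw [← h.abs x y, hyz, h.abs x z]

end IsSquag

lemma block_eq {V : Type*} [DecidableEq V] {op : V → V → V} (h : IsSquag op) {u v x y : V}
    (_huv : u ≠ v) (hx : x ∈ ({u, v, op u v} : Finset V)) (hy : y ∈ ({u, v, op u v} : Finset V))
    (hxy : x ≠ y) : ({u, v, op u v} : Finset V) = {x, y, op x y} := by
  simp only [Finset.mem_insert, Finset.mem_singleton] at hx hy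
  rcases hx with rfl | rfl | rfl <;> rcases hy with rfl | rfl | rfl
  · exact absurd rfl hxy
  · rfl
  · rw [h.abs]; ext z; simp only [Finset.mem_insert, Finset.mem_singleton]; tauto
  · rw [h.comm y x]; ext z; simp only [Finset.mem_insert, Finset.mem_singleton]; tauto
  · exact absurd rfl hxy
  · rw [h.abs']; ext z; simp only [Finset.mem_insert, Finset.mem_singleton]; tauto
  · rw [h.comm (op y v) y, h.abs]; ext z; simp only [Finset.mem_insert, Finset.mem_singleton]; tauto
  · rw [h.comm (op u y) y, h.abs']; ext z; simp only [Finset.mem_insert, Finset.mem_singleton]; tauto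
  · exact absurd rfl hxy

/-- Conversion of a Steiner quasigroup with prescribed automorphism group into the block form. -/
theorem convert_fin {G : Type} [Group G] {m : ℕ} (op : Fin m → Fin m → Fin m) (h : IsSquag op)
    (φ : G →* Equiv.Perm (Fin m)) (hφ : Function.Injective φ)
    (haut : ∀ σ : Equiv.Perm (Fin m), σ ∈ φ.range ↔ ∀ x y, σ (op x y) = op (σ x) (σ y)) :
    ∃ (B : Finset (Finset (Fin m))),
        (∀ b ∈ B, b.card = 3) ∧
        (∀ x y : Fin m, x ≠ y → ∃! b, b ∈ B ∧ x ∈ b ∧ y ∈ b) ∧
        ∃ φ : G →* Equiv.Perm (Fin m), Function.Injective φ ∧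
          ∀ σ : Equiv.Perm (Fin m),
            (σ ∈ φ.range ↔ ∀ b : Finset (Fin m), (b ∈ B ↔ b.map σ.toEmbedding ∈ B)) := by
  classical
  let B : Finset (Finset (Fin m)) :=
    Finset.univ.filter (fun b => ∃ x y : Fin m, x ≠ y ∧ b = {x, y, op x y})
  have hB : ∀ b, b ∈ B ↔ ∃ x y : Fin m, x ≠ y ∧ b = {x, y, op x y} := by
    intro b; simp [B]
  refine ⟨B, ?_, ?_, φ, hφ, ?_⟩
  · intro b hb
    obtain ⟨x, y, hxy, rfl⟩ := (hB b).1 hb
    rw [Finset.card_eq_three]
    exact ⟨x, y, op x y, hxy, (h.ne_left hxy).symm, (h.ne_right hxy).symm, rfl⟩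
  · intro x y hxy
    refine ⟨{x, y, op x y}, ⟨(hB _).2 ⟨x, y, hxy, rfl⟩, by simp, by simp⟩, ?_⟩
    rintro b ⟨hb, hx, hy⟩
    obtain ⟨u, v, huv, rfl⟩ := (hB b).1 hb
    exact block_eq h huv hx hy hxy
  · intro σ
    rw [haut]
    have hmap : ∀ x y z : Fin m, ({x, y, z} : Finset (Fin m)).map σ.toEmbedding = {σ x, σ y, σ z} := by
      intro x y z
      simp [Finset.map_insert, Finset.map_singleton]
    constructor
    · intro hσ b
      rw [hB, hB]
      constructor
      · rintro ⟨x, y, hxy, rfl⟩
        refine ⟨σ x, σ y, fun hh => hxy (σ.injective hh), ?_⟩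
        rw [hmap, hσ]
      · rintro ⟨x, y, hxy, hb⟩
        refine ⟨σ.symm x, σ.symm y, fun hh => hxy (σ.symm.injective hh), ?_⟩
        apply Finset.map_injective σ.toEmbedding
        rw [hb, hmap, hσ]
        simp
    · intro hσ x y
      by_cases hxy : x = y
      · subst hxy; rw [h.idem, h.idem]
      · have hb : ({x, y, op x y} : Finset (Fin m)) ∈ B := (hB _).2 ⟨x, y, hxy, rfl⟩
        have hb2 := (hσ _).1 hb
        rw [hmap] at hb2
        obtain ⟨u, v, huv, he⟩ := (hB _).1 hb2
        have h1 : σ x ∈ ({u, v, op u v} : Finset (Fin m)) := by rw [← he]; simp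
        have h2 : σ y ∈ ({u, v, op u v} : Finset (Fin m)) := by rw [← he]; simp
        have hne : σ x ≠ σ y := fun hh => hxy (σ.injective hh)
        have h3 := block_eq h huv h1 h2 hne
        rw [← he] at h3
        have h4 : σ (op x y) ∈ ({σ x, σ y, op (σ x) (σ y)} : Finset (Fin m)) := by
          rw [← h3]; simp
        simp only [Finset.mem_insert, Finset.mem_singleton] at h4
        rcases h4 with h5 | h5 | h5
        · exact absurd (σ.injective h5) (h.ne_left hxy)
        · exact absurd (σ.injective h5) (h.ne_right hxy)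
        · exact h5

/-- Conversion from an arbitrary finite type. -/
theorem convert_type {G V : Type} [Group G] [Fintype V] (op : V → V → V) (h : IsSquag op)
    (φ : G →* Equiv.Perm V) (hφ : Function.Injective φ)
    (haut : ∀ σ : Equiv.Perm V, σ ∈ φ.range ↔ ∀ x y, σ (op x y) = op (σ x) (σ y)) :
    ∃ (B : Finset (Finset (Fin (Fintype.card V)))),
        (∀ b ∈ B, b.card = 3) ∧
        (∀ x y : Fin (Fintype.card V), x ≠ y → ∃! b, b ∈ B ∧ x ∈ b ∧ y ∈ b) ∧
        ∃ φ : G →* Equiv.Perm (Fin (Fintype.card V)), Function.Injective φ ∧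
          ∀ σ : Equiv.Perm (Fin (Fintype.card V)),
            (σ ∈ φ.range ↔ ∀ b : Finset (Fin (Fintype.card V)),
              (b ∈ B ↔ b.map σ.toEmbedding ∈ B)) := by
  let E : V ≃ Fin (Fintype.card V) := Fintype.equivFin V
  let op' : Fin (Fintype.card V) → Fin (Fintype.card V) → Fin (Fintype.card V) :=
    fun x y => E (op (E.symm x) (E.symm y))
  have h' : IsSquag op' := by
    refine ⟨fun x => ?_, fun x y => ?_, fun x y => ?_⟩
    · simp [op', h.idem]
    · simp only [op']; rw [h.comm]
    · simp [op', h.abs]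
  let c : Equiv.Perm V ≃* Equiv.Perm (Fin (Fintype.card V)) := E.permCongrHom
  refine convert_fin op' h' (c.toMonoidHom.comp φ) (c.injective.comp hφ) ?_
  intro σ
  have h1 : σ ∈ (c.toMonoidHom.comp φ).range ↔ c.symm σ ∈ φ.range := by
    constructor
    · rintro ⟨g, rfl⟩
      exact ⟨g, by simp⟩
    · rintro ⟨g, hg⟩
      refine ⟨g, ?_⟩
      have : (c.toMonoidHom.comp φ) g = c (φ g) := rfl
      rw [this, hg]
      simp
  rw [h1, haut]
  have h2 : ∀ v, (c.symm σ) v = E.symm (σ (E v)) := fun v => rfl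
  constructor
  · intro hh x y
    have := hh (E.symm x) (E.symm y)
    rw [h2, h2, h2] at this
    simp only [Equiv.apply_symm_apply] at this
    simp only [op']
    rw [← this]
    simp
  · intro hh x y
    have := hh (E x) (E y)
    simp only [op', Equiv.symm_apply_apply] at this
    rw [h2, h2, h2, this]
    simp

end Pool.Agent.Lib_helper60.Sts
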