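import Pool.Agent.Lib_helper60.Sts.Basic

set_option autoImplicit false

namespace Pool.Agent.Lib_helper60.Sts

/-- Proper subsystems of a Steiner quasigroup have size less than half. -/
lemma IsSquag.card_sub {V : Type*} [Fintype V] [DecidableEq V] {op : V → V → V} (h : IsSquag op)
    (S : Finset V) (hS : ∀ x ∈ S, ∀ y ∈ S, op x y ∈ S) (hne : S ≠ Finset.univ) :
    2 * S.card + 1 ≤ Fintype.card V := by
  obtain ⟨y, hy⟩ : ∃ y, y ∉ S := by
    by_contra hcon
    push Not at hcon
    exact hne (Finset.eq_univ_iff_forall.2 hcon)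
  have h1 : (insert y (S.image (op y))).card = S.card + 1 := by
    rw [Finset.card_insert_of_notMem, Finset.card_image_of_injective _ (h.inj y)]
    intro hcon
    obtain ⟨z, hz, he⟩ := Finset.mem_image.1 hcon
    have : y ≠ z := fun hh => hy (hh ▸ hz)
    exact h.ne_left this he
  have h2 : Disjoint S (insert y (S.image (op y))) := by
    rw [Finset.disjoint_left]
    intro z hz hz2
    rcases Finset.mem_insert.1 hz2 with rfl | hz3
    · exact hy hz
    · obtain ⟨w, hw, rfl⟩ := Finset.mem_image.1 hz3
      apply hy
      have := hS w hw _ hz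
      rwa [h.abs'] at this
  have h3 := Finset.card_union_of_disjoint h2
  have h4 := Finset.card_le_univ (S ∪ insert y (S.image (op y)))
  omega

section
variable (p : ℕ)

/-- one half in `ZMod p`, `p` odd -/
def hf : ZMod p := ((p + 1) / 2 : ℕ)

lemma two_hf (hp : Odd p) : (2 : ZMod p) * hf p = 1 := by
  unfold hf
  have h1 : 2 * ((p + 1) / 2) = p + 1 := by
    obtain ⟨k, hk⟩ := hp
    omega
  have h2 : ((2 * ((p + 1) / 2) : ℕ) : ZMod p) = ((p + 1 : ℕ) : ZMod p) := by rw [h1]
  push_cast at h2
  simpa using h2

/-- Bose operation -/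
def bop (u v : ZMod p × ZMod 3) : ZMod p × ZMod 3 :=
  if u = v then u else
  if u.2 = v.2 then ((u.1 + v.1) * hf p, u.2 + 1) else
  if v.2 = u.2 + 1 then (if u.1 = v.1 then (u.1, u.2 + 2) else (2 * v.1 - u.1, u.2))
  else (if u.1 = v.1 then (u.1, u.2 + 1) else (2 * u.1 - v.1, v.2))

variable {p}

lemma z3_cases (i k : ZMod 3) : k = i ∨ k = i + 1 ∨ k = i + 2 := by
  revert i k; decide

lemma z3_1 (i : ZMod 3) : i ≠ i + 1 := by revert i; decide
lemma z3_2 (i : ZMod 3) : i ≠ i + 2 := by revert i; decide
lemma z3_3 (i : ZMod 3) : i + 2 ≠ i + 1 := by revert i; decide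
lemma z3_4 (i : ZMod 3) : i + 2 + 1 = i := by revert i; decide
lemma z3_5 (i : ZMod 3) : i + 1 + 2 = i := by revert i; decide
lemma z3_6 (i : ZMod 3) : i + 1 + 1 = i + 2 := by revert i; decide
lemma z3_7 (i : ZMod 3) : i ≠ i + 1 + 1 := by revert i; decide

lemma bop_same {x y : ZMod p} {i : ZMod 3} (h : x ≠ y) :
    bop p (x, i) (y, i) = ((x + y) * hf p, i + 1) := by
  have : (x, i) ≠ (y, i) := fun hh => h (Prod.mk.inj hh).1
  simp [bop, this]

lemma bop_self (u : ZMod p × ZMod 3) : bop p u u = u := by simp [bop]

lemma bop_next {x y : ZMod p} {i : ZMod 3} (h : x ≠ y) :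
    bop p (x, i) (y, i + 1) = (2 * y - x, i) := by
  have h1 : (x, i) ≠ (y, i + 1) := fun hh => h (Prod.mk.inj hh).1
  simp [bop, h1, h]

lemma bop_next_eq (x : ZMod p) (i : ZMod 3) :
    bop p (x, i) (x, i + 1) = (x, i + 2) := by
  have h1 : (x, i) ≠ (x, i + 1) := fun hh => z3_1 i (Prod.mk.inj hh).2
  simp [bop]

lemma bop_prev {x y : ZMod p} {i : ZMod 3} (h : x ≠ y) :
    bop p (x, i + 1) (y, i) = (2 * x - y, i) := by
  have h1 : (x, i + 1) ≠ (y, i) := fun hh => h (Prod.mk.inj hh).1
  simp [bop, h1, h, z3_7]

lemma bop_prev_eq (x : ZMod p) (i : ZMod 3) :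
    bop p (x, i + 1) (x, i) = (x, i + 2) := by
  have h1 : (x, i + 1) ≠ (x, i) := fun hh => z3_1 i (Prod.mk.inj hh).2.symm
  simp only [bop, if_neg h1, if_neg (z3_1 i).symm, if_neg (z3_2 i), if_true, z3_6]

lemma z3_9 (i : ZMod 3) : i + 2 + 2 = i + 1 := by revert i; decide

lemma bop_two_eq (x : ZMod p) (i : ZMod 3) : bop p (x, i) (x, i + 2) = (x, i + 1) := by
  have h5 := bop_prev_eq x (i + 2)
  rw [z3_4, z3_9] at h5
  exact h5

lemma bop_two_eq' (x : ZMod p) (i : ZMod 3) : bop p (x, i + 2) (x, i) = (x, i + 1) := by
  have h5 := bop_next_eq x (i + 2)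
  rw [z3_4, z3_9] at h5
  exact h5

lemma bop_two {x y : ZMod p} {i : ZMod 3} (h : x ≠ y) :
    bop p (x, i) (y, i + 2) = (2 * x - y, i + 2) := by
  have h5 := bop_prev (i := i + 2) h
  rw [z3_4] at h5
  exact h5

lemma bop_two' {x y : ZMod p} {i : ZMod 3} (h : x ≠ y) :
    bop p (x, i + 2) (y, i) = (2 * y - x, i + 2) := by
  have h5 := bop_next (i := i + 2) h
  rw [z3_4] at h5
  exact h5

theorem bop_squag (hp : Odd p) : IsSquag (bop p) := by
  have h2 := two_hf p hp
  refine ⟨bop_self, ?_, ?_⟩
  · rintro ⟨x, i⟩ ⟨y, k⟩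
    rcases z3_cases i k with rfl | rfl | rfl
    · by_cases hxy : x = y
      · subst hxy; rfl
      · rw [bop_same hxy, bop_same (Ne.symm hxy), add_comm x y]
    · by_cases hxy : x = y
      · subst hxy; rw [bop_next_eq, bop_prev_eq]
      · rw [bop_next hxy, bop_prev (Ne.symm hxy)]
    · by_cases hxy : x = y
      · subst hxy
        rw [bop_two_eq, bop_two_eq']
      · rw [bop_two hxy, bop_two' (Ne.symm hxy)]
  · rintro ⟨x, i⟩ ⟨y, k⟩
    rcases z3_cases i k with rfl | rfl | rfl
    · by_cases hxy : x = y
      · subst hxy; rw [bop_self, bop_self]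
      · rw [bop_same hxy]
        have hne : x ≠ (x + y) * hf p := by
          intro hh
          apply hxy
          have : 2 * x = x + y := by
            calc 2 * x = 2 * ((x + y) * hf p) := by rw [← hh]
              _ = (x + y) * (2 * hf p) := by ring
              _ = x + y := by rw [h2, mul_one]
          have h3 : x = y := by
            have := congrArg (fun z => z - x) this
            simpa [two_mul] using this
          exact h3
        rw [bop_next hne]
        congr 1
        calc 2 * ((x + y) * hf p) - x = (x + y) * (2 * hf p) - x := by ring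
          _ = y := by rw [h2]; ring
    · by_cases hxy : x = y
      · subst hxy
        rw [bop_next_eq, bop_two_eq]
      · rw [bop_next hxy]
        have hne : x ≠ 2 * y - x := by
          intro hh
          apply hxy
          have h3 : 2 * x = 2 * y := by
            calc 2 * x = x + x := by ring
              _ = x + (2 * y - x) := by rw [← hh]
              _ = 2 * y := by ring
          have h4 : (2 * hf p) * x = (2 * hf p) * y := by
            calc (2 * hf p) * x = hf p * (2 * x) := by ring
              _ = hf p * (2 * y) := by rw [h3]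
              _ = (2 * hf p) * y := by ring
          rwa [h2, one_mul, one_mul] at h4
        rw [bop_same hne]
        congr 1
        calc (x + (2 * y - x)) * hf p = (2 * hf p) * y := by ring
          _ = y := by rw [h2, one_mul]
    · by_cases hxy : x = y
      · subst hxy
        rw [bop_two_eq, bop_next_eq]
      · rw [bop_two hxy]
        have hne : x ≠ 2 * x - y := by
          intro hh
          apply hxy
          have h3 : x + y = x + x := by
            calc x + y = (2 * x - y) + y := by rw [← hh]
              _ = x + x := by ring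
          exact (add_left_cancel h3).symm
        rw [bop_two hne]
        congr 1
        ring

end

/-- **Large subsystems of Bose systems.** -/
theorem bose_sub {p : ℕ} [NeZero p] (hp : Odd p) (M : ℕ) (hM : M + 12 < p) (hp25 : 25 < p)
    (S : Finset (ZMod p × ZMod 3)) (hS : ∀ u ∈ S, ∀ v ∈ S, bop p u v ∈ S)
    (hne : S ≠ Finset.univ) : 2 * S.card + M < 3 * p := by
  classical
  by_contra hcon
  push Not at hcon
  have h2 := two_hf p hp
  have hprop := (bop_squag hp).card_sub S hS hne
  have hcardV : Fintype.card (ZMod p × ZMod 3) = 3 * p := by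
    rw [Fintype.card_prod, ZMod.card, ZMod.card]; ring
  rw [hcardV] at hprop
  have half_inj : ∀ a b : ZMod p, 2 * a = 2 * b → a = b := by
    intro a b hab
    calc a = (2 * hf p) * a := by rw [h2, one_mul]
      _ = hf p * (2 * a) := by ring
      _ = hf p * (2 * b) := by rw [hab]
      _ = (2 * hf p) * b := by ring
      _ = b := by rw [h2, one_mul]
  let s : ZMod 3 → Finset (ZMod p) := fun i => Finset.univ.filter (fun x => (x, i) ∈ S)
  have hs : ∀ i x, x ∈ s i ↔ (x, i) ∈ S := by intro i x; simp [s]
  have hcard : S.card = (s 0).card + (s 1).card + (s 2).card := by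
    have h3 : S.card = ∑ i : ZMod 3, (S.filter (fun u => u.2 = i)).card :=
      Finset.card_eq_sum_card_fiberwise (fun u _ => Finset.mem_coe.2 (Finset.mem_univ u.2))
    have h4 : ∀ i : ZMod 3, (S.filter (fun u => u.2 = i)).card = (s i).card := by
      intro i
      refine Finset.card_bij' (fun u _ => u.1) (fun x _ => (x, i)) ?_ ?_ ?_ ?_
      · intro u hu
        rw [Finset.mem_filter] at hu
        rw [hs, ← hu.2]; exact hu.1
      · intro x hx
        rw [Finset.mem_filter]
        exact ⟨(hs i x).1 hx, rfl⟩
      · intro u hu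
        rw [Finset.mem_filter] at hu
        rw [← hu.2]
      · intro x hx; rfl
    rw [h3]
    simp_rw [h4]
    exact Fin.sum_univ_three (fun i : Fin 3 => (s i).card)
  -- (a)
  have hstep : ∀ i, (s i).card ≤ (s (i + 1)).card + 1 := by
    intro i
    by_cases hem : (s i).Nonempty
    · obtain ⟨x0, hx0⟩ := hem
      have h3 : ((s i).erase x0).card ≤ (s (i + 1)).card := by
        apply Finset.card_le_card_of_injOn (fun y => (x0 + y) * hf p)
        · intro y hy
          have hy1 := Finset.mem_erase.1 (Finset.mem_coe.1 hy)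
          have h5 := hS _ ((hs i x0).1 hx0) _ ((hs i y).1 hy1.2)
          rw [bop_same (Ne.symm hy1.1)] at h5
          exact Finset.mem_coe.2 ((hs _ _).2 h5)
        · intro y _ y' _ hyy
          simp only at hyy
          have h6 : x0 + y = x0 + y' := by
            calc x0 + y = (x0 + y) * (2 * hf p) := by rw [h2, mul_one]
              _ = 2 * ((x0 + y) * hf p) := by ring
              _ = 2 * ((x0 + y') * hf p) := by rw [hyy]
              _ = (x0 + y') * (2 * hf p) := by ring
              _ = x0 + y' := by rw [h2, mul_one]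
          exact add_left_cancel h6
      rw [Finset.card_erase_of_mem hx0] at h3
      omega
    · rw [Finset.not_nonempty_iff_eq_empty] at hem
      rw [hem]; simp
  have h01 := hstep 0
  have h12 := hstep 1
  have h20 := hstep 2
  rw [show (0 : ZMod 3) + 1 = 1 from rfl] at h01
  rw [show (1 : ZMod 3) + 1 = 2 from rfl] at h12
  rw [show (2 : ZMod 3) + 1 = 0 from rfl] at h20
  have hs0 : p < 3 * (s 0).card := by omega
  have hs1 : p < 3 * (s 1).card := by omega
  -- differences
  let D : Finset (ZMod p) := Finset.univ.filter (fun t => ∃ z ∈ s 1, ∃ z' ∈ s 1, t = z' - z)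
  have hD : ∀ t, t ∈ D ↔ ∃ z ∈ s 1, ∃ z' ∈ s 1, t = z' - z := by intro t; simp [D]
  have htr : ∀ t : ZMod p, t ∈ D ∨ 2 * t ∈ D := by
    intro t
    by_contra hcon2
    push Not at hcon2
    obtain ⟨n1, n2⟩ := hcon2
    have hc : ∀ a : ZMod p, ((s 1).image (fun z => z + a)).card = (s 1).card := fun a =>
      Finset.card_image_of_injective _ (add_left_injective a)
    have d1 : Disjoint ((s 1).image (fun z => z + 0)) ((s 1).image (fun z => z + t)) := by
      rw [Finset.disjoint_left]
      intro w hw hw2
      obtain ⟨z, hz, rfl⟩ := Finset.mem_image.1 hw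
      obtain ⟨z', hz', he⟩ := Finset.mem_image.1 hw2
      apply n1
      rw [hD]
      refine ⟨z', hz', z, hz, ?_⟩
      have : z = z' + t := by rw [he, add_zero]
      rw [this]; ring
    have d2 : Disjoint ((s 1).image (fun z => z + 0) ∪ (s 1).image (fun z => z + t))
        ((s 1).image (fun z => z + 2 * t)) := by
      rw [Finset.disjoint_left]
      intro w hw hw2
      obtain ⟨z', hz', he⟩ := Finset.mem_image.1 hw2
      rcases Finset.mem_union.1 hw with hw | hw
      · obtain ⟨z, hz, rfl⟩ := Finset.mem_image.1 hw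
        apply n2
        rw [hD]
        refine ⟨z', hz', z, hz, ?_⟩
        have : z = z' + 2 * t := by rw [he, add_zero]
        rw [this]; ring
      · obtain ⟨z, hz, rfl⟩ := Finset.mem_image.1 hw
        apply n1
        rw [hD]
        refine ⟨z', hz', z, hz, ?_⟩
        have : z = z' + 2 * t - t := by rw [he]; ring
        rw [this]; ring
    have e1 := Finset.card_union_of_disjoint d1
    have e2 := Finset.card_union_of_disjoint d2
    rw [e1, hc, hc, hc] at e2
    have e3 := Finset.card_le_univ ((s 1).image (fun z => z + 0) ∪ (s 1).image (fun z => z + t)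
      ∪ (s 1).image (fun z => z + 2 * t))
    rw [ZMod.card] at e3
    omega
  have hDcard : p < 2 * D.card := by
    have h3 : (Finset.univ : Finset (ZMod p)) ⊆ D ∪ D.image (fun t => hf p * t) := by
      intro t _
      rcases htr t with h4 | h4
      · exact Finset.mem_union_left _ h4
      · apply Finset.mem_union_right
        rw [Finset.mem_image]
        refine ⟨2 * t, h4, ?_⟩
        calc hf p * (2 * t) = (2 * hf p) * t := by ring
          _ = t := by rw [h2, one_mul]
    have h4 := Finset.card_le_card h3
    have h5 := Finset.card_union_le D (D.image (fun t => hf p * t))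
    have h6 : (D.image (fun t => hf p * t)).card ≤ D.card := Finset.card_image_le
    rw [Finset.card_univ, ZMod.card] at h4
    obtain ⟨k, hk⟩ := hp
    omega
  have hsum : ∀ u : ZMod p, ∃ d1 ∈ D, ∃ d2 ∈ D, u = d1 + d2 := by
    intro u
    by_contra hcon2
    push Not at hcon2
    have hdis : Disjoint D (D.image (fun t => u - t)) := by
      rw [Finset.disjoint_left]
      intro w hw hw2
      obtain ⟨z, hz, he⟩ := Finset.mem_image.1 hw2
      apply hcon2 w hw z hz
      rw [← he]; ring
    have e1 := Finset.card_union_of_disjoint hdis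
    have e2 : (D.image (fun t => u - t)).card = D.card :=
      Finset.card_image_of_injective _ (fun a b hab => by simpa using hab)
    have e3 := Finset.card_le_univ (D ∪ D.image (fun t => u - t))
    rw [ZMod.card] at e3
    omega
  -- (e)
  have hbad : ∀ d ∈ D, ((s 0).filter (fun x => x + 2 * d ∉ s 0)).card ≤ 2 := by
    intro d hd
    obtain ⟨z, hz, z', hz', rfl⟩ := (hD d).1 hd
    have h3 : (s 0).filter (fun x => x + 2 * (z' - z) ∉ s 0) ⊆ {z, 2 * z - z'} := by
      intro x hx
      rw [Finset.mem_filter] at hx
      by_contra hcon2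
      rw [Finset.mem_insert, Finset.mem_singleton] at hcon2
      push Not at hcon2
      obtain ⟨c1, c2⟩ := hcon2
      apply hx.2
      have e1 := hS _ ((hs 0 x).1 hx.1) _ ((hs 1 z).1 hz)
      have e2 : bop p (x, 0) (z, 1) = (2 * z - x, 0) := bop_next (i := 0) c1
      rw [e2] at e1
      have c3 : 2 * z - x ≠ z' := by
        intro hh
        apply c2
        rw [← hh]; ring
      have e3 := hS _ e1 _ ((hs 1 z').1 hz')
      have e4 : bop p (2 * z - x, 0) (z', 1) = (2 * z' - (2 * z - x), 0) := bop_next (i := 0) c3
      rw [e4] at e3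
      rw [hs]
      have : x + 2 * (z' - z) = 2 * z' - (2 * z - x) := by ring
      rw [this]; exact e3
    exact (Finset.card_le_card h3).trans (Finset.card_insert_le _ _)
  have hbad4 : ∀ u : ZMod p, ((s 0).filter (fun x => x + 2 * u ∉ s 0)).card ≤ 4 := by
    intro u
    obtain ⟨d1, hd1, d2, hd2, rfl⟩ := hsum u
    have h3 : (s 0).filter (fun x => x + 2 * (d1 + d2) ∉ s 0) ⊆
        (s 0).filter (fun x => x + 2 * d1 ∉ s 0) ∪
        ((s 0).filter (fun x => x + 2 * d2 ∉ s 0)).image (fun x => x - 2 * d1) := by
      intro x hx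
      rw [Finset.mem_filter] at hx
      by_cases h4 : x + 2 * d1 ∈ s 0
      · apply Finset.mem_union_right
        rw [Finset.mem_image]
        refine ⟨x + 2 * d1, ?_, by ring⟩
        rw [Finset.mem_filter]
        refine ⟨h4, ?_⟩
        have : x + 2 * d1 + 2 * d2 = x + 2 * (d1 + d2) := by ring
        rw [this]; exact hx.2
      · apply Finset.mem_union_left
        rw [Finset.mem_filter]
        exact ⟨hx.1, h4⟩
    have e1 := Finset.card_le_card h3
    have e2 := Finset.card_union_le ((s 0).filter (fun x => x + 2 * d1 ∉ s 0))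
      (((s 0).filter (fun x => x + 2 * d2 ∉ s 0)).image (fun x => x - 2 * d1))
    have e3 : (((s 0).filter (fun x => x + 2 * d2 ∉ s 0)).image (fun x => x - 2 * d1)).card ≤
      ((s 0).filter (fun x => x + 2 * d2 ∉ s 0)).card := Finset.card_image_le
    have e4 := hbad d1 hd1
    have e5 := hbad d2 hd2
    omega
  -- (g) double counting
  have hdc : (s 0).card * (p - (s 0).card) ≤ 4 * p := by
    have h3 : ∑ u : ZMod p, ((s 0).filter (fun x => x + 2 * u ∉ s 0)).card
        = ∑ x ∈ s 0, (Finset.univ.filter (fun u : ZMod p => x + 2 * u ∉ s 0)).card := by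
      simp_rw [Finset.card_filter]
      rw [Finset.sum_comm]
    have h4 : ∀ x ∈ s 0, (Finset.univ.filter (fun u : ZMod p => x + 2 * u ∉ s 0)).card
        = p - (s 0).card := by
      intro x _
      have h5 : (Finset.univ.filter (fun u : ZMod p => x + 2 * u ∉ s 0)).card
          = ((s 0)ᶜ).card := by
        refine Finset.card_bij' (fun u _ => x + 2 * u) (fun w _ => hf p * (w - x)) ?_ ?_ ?_ ?_
        · intro u hu
          rw [Finset.mem_filter] at hu
          rw [Finset.mem_compl]; exact hu.2
        · intro w hw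
          rw [Finset.mem_compl] at hw
          rw [Finset.mem_filter]
          refine ⟨Finset.mem_univ _, ?_⟩
          have : x + 2 * (hf p * (w - x)) = w := by
            calc x + 2 * (hf p * (w - x)) = x + (2 * hf p) * (w - x) := by ring
              _ = w := by rw [h2]; ring
          rw [this]; exact hw
        · intro u _
          calc hf p * (x + 2 * u - x) = (2 * hf p) * u := by ring
            _ = u := by rw [h2, one_mul]
        · intro w _
          calc x + 2 * (hf p * (w - x)) = x + (2 * hf p) * (w - x) := by ring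
            _ = w := by rw [h2]; ring
      rw [h5, Finset.card_compl, ZMod.card]
    have h6 : ∑ u : ZMod p, ((s 0).filter (fun x => x + 2 * u ∉ s 0)).card ≤ ∑ _u : ZMod p, 4 :=
      Finset.sum_le_sum (fun u _ => hbad4 u)
    rw [h3, Finset.sum_congr rfl h4, Finset.sum_const, Finset.sum_const, Finset.card_univ,
      ZMod.card, smul_eq_mul, smul_eq_mul] at h6
    linarith
  have hle : (s 0).card ≤ p := by
    have := Finset.card_le_univ (s 0)
    rwa [ZMod.card] at this
  have hfin : p - (s 0).card < 12 := by
    by_contra hcon2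
    push Not at hcon2
    have h3 : (s 0).card * 12 ≤ (s 0).card * (p - (s 0).card) := Nat.mul_le_mul_left _ hcon2
    omega
  omega

end Pool.Agent.Lib_helper60.Sts
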