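import Pool.Agent.Lib_helper60.Sts.OneFact

set_option autoImplicit false

namespace Pool.Agent.Lib_helper60.Sts

section Defs
variable {G : Type} [Group G] [Fintype G] (e : G ≃ Fin (Fintype.card G)) (gs : G) (q : ℕ)

/-- points outside `F`: role, part, index, group element -/
abbrev HH (G : Type) (q : ℕ) : Type := Fin 15 × Fin 4 × ZMod q × G

/-- shift attached to a group element -/
def sft (h : G) : ZMod q := (((e h : ℕ) + 10 : ℕ) : ZMod q)

/-- one representative of each pair of non-involutions -/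
abbrev Pp : Type := {h : G // e h < e h⁻¹}

/-- enumeration label -/
def gam (j : ZMod q) : G :=
  if h : j.val < Fintype.card G then e.symm ⟨j.val, h⟩ else 1

/-- labels -/
def lab (r : Fin 15) (F : Fin 4) (j : ZMod q) : G :=
  if (r = 1 ∧ F = 0) ∨ (r = 2 ∧ F = 1) ∨ (r = 3 ∧ F = 2) ∨ (r = 4 ∧ F = 3) then gs
  else if r = 5 ∧ F = 1 then (if j = 0 then gs else 1)
  else if r = 6 ∧ F = 1 then gam e q j
  else 1

/-- labelled part of a family -/
def dpart (F : Fin 4) : Fin 4 := if F = 2 then 3 else 2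

/-- label of family `F` at part `c` -/
def lb (r : Fin 15) (F c : Fin 4) (j : ZMod q) : G :=
  if c = dpart F then lab e gs q r F j else 1

/-- natural number product cast -/
def fc (F c : Fin 4) : ZMod q := ((F.val * c.val : ℕ) : ZMod q)

/-- points of a transversal triple -/
def trp (r : Fin 15) (F : Fin 4) (j : ZMod q) (x : G) (c : Fin 4) : HH G q :=
  (r, c, j + fc q F c, x * lb e gs q r F c j)

/-- points of a pure triple -/
def pup (r : Fin 15) (c : Fin 4) (j : ZMod q) (x : G) (h : G) : Fin 3 → HH G q :=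
  ![(r, c, j, x), (r, c, j, x * h), (r, Fin.rev c, j + sft e q h, x)]

/-- index type of the ordered collinear pairs -/
abbrev WW : Type :=
  ((Fin 4 × ZMod q × G) × {p : Fin 15 × Fin 15 // p.1 ≠ p.2}) ⊕
  ((Fin 15 × Fin 4 × ZMod q × G × Pp e) × Equiv.Perm (Fin 3)) ⊕
  ((Fin 15 × ZMod q × G) × Equiv.Perm (Fin 4))

/-- the three points -/
def Wpt : WW e q → Fin 3 → HH G q
  | .inl (P, rr), i => (![rr.1.1, rr.1.2, rtab rr.1.1 rr.1.2] i, P)
  | .inr (.inl ((r, c, j, x, h), σ)), i => pup e q r c j x h.1 (σ i)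
  | .inr (.inr ((r, j, x), τ)), i => trp e gs q r (τ 3) j x (τ i.castSucc)

lemma W_swap (w : WW e q) : ∃ w' : WW e q, Wpt e gs q w' 0 = Wpt e gs q w 1 ∧
    Wpt e gs q w' 1 = Wpt e gs q w 0 ∧ Wpt e gs q w' 2 = Wpt e gs q w 2 := by
  rcases w with ⟨P, rr⟩ | ⟨⟨r, c, j, x, h⟩, σ⟩ | ⟨⟨r, j, x⟩, τ⟩
  · refine ⟨.inl (P, ⟨(rr.1.2, rr.1.1), rr.2.symm⟩), rfl, rfl, ?_⟩
    simp only [Wpt]
    congr 1
    exact rtab_squag.comm _ _
  · exact ⟨.inr (.inl ((r, c, j, x, h), σ * Equiv.swap 0 1)), by simp [Wpt], by simp [Wpt],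
      by simp only [Wpt, Equiv.Perm.mul_apply]; congr 2⟩
  · refine ⟨.inr (.inr ((r, j, x), τ * Equiv.swap 0 1)), ?_, ?_, ?_⟩
    · have h3 : (Equiv.swap (0 : Fin 4) 1) 3 = 3 := by decide
      have h0 : (Equiv.swap (0 : Fin 4) 1) (Fin.castSucc (0 : Fin 3)) = Fin.castSucc (1 : Fin 3) := by
        decide
      simp only [Wpt, Equiv.Perm.mul_apply, h3, h0]
    · have h3 : (Equiv.swap (0 : Fin 4) 1) 3 = 3 := by decide
      have h0 : (Equiv.swap (0 : Fin 4) 1) (Fin.castSucc (1 : Fin 3)) = Fin.castSucc (0 : Fin 3) := by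
        decide
      simp only [Wpt, Equiv.Perm.mul_apply, h3, h0]
    · have h3 : (Equiv.swap (0 : Fin 4) 1) 3 = 3 := by decide
      have h0 : (Equiv.swap (0 : Fin 4) 1) (Fin.castSucc (2 : Fin 3)) = Fin.castSucc (2 : Fin 3) := by
        decide
      simp only [Wpt, Equiv.Perm.mul_apply, h3, h0]

lemma W_rot (w : WW e q) : ∃ w' : WW e q, Wpt e gs q w' 0 = Wpt e gs q w 0 ∧
    Wpt e gs q w' 1 = Wpt e gs q w 2 ∧ Wpt e gs q w' 2 = Wpt e gs q w 1 := by
  rcases w with ⟨P, rr⟩ | ⟨⟨r, c, j, x, h⟩, σ⟩ | ⟨⟨r, j, x⟩, τ⟩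
  · refine ⟨.inl (P, ⟨(rr.1.1, rtab rr.1.1 rr.1.2), (rtab_squag.ne_left rr.2).symm⟩), rfl, rfl, ?_⟩
    simp only [Wpt]
    congr 1
    exact rtab_squag.abs _ _
  · refine ⟨.inr (.inl ((r, c, j, x, h), σ * Equiv.swap 1 2)), ?_, ?_, ?_⟩
    · have h0 : (Equiv.swap (1 : Fin 3) 2) 0 = 0 := by decide
      simp only [Wpt, Equiv.Perm.mul_apply, h0]
    · have h0 : (Equiv.swap (1 : Fin 3) 2) 1 = 2 := by decide
      simp only [Wpt, Equiv.Perm.mul_apply, h0]
    · have h0 : (Equiv.swap (1 : Fin 3) 2) 2 = 1 := by decide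
      simp only [Wpt, Equiv.Perm.mul_apply, h0]
  · refine ⟨.inr (.inr ((r, j, x), τ * Equiv.swap 1 2)), ?_, ?_, ?_⟩
    · have h3 : (Equiv.swap (1 : Fin 4) 2) 3 = 3 := by decide
      have h0 : (Equiv.swap (1 : Fin 4) 2) (Fin.castSucc (0 : Fin 3)) = Fin.castSucc (0 : Fin 3) := by
        decide
      simp only [Wpt, Equiv.Perm.mul_apply, h3, h0]
    · have h3 : (Equiv.swap (1 : Fin 4) 2) 3 = 3 := by decide
      have h0 : (Equiv.swap (1 : Fin 4) 2) (Fin.castSucc (1 : Fin 3)) = Fin.castSucc (2 : Fin 3) := by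
        decide
      simp only [Wpt, Equiv.Perm.mul_apply, h3, h0]
    · have h3 : (Equiv.swap (1 : Fin 4) 2) 3 = 3 := by decide
      have h0 : (Equiv.swap (1 : Fin 4) 2) (Fin.castSucc (2 : Fin 3)) = Fin.castSucc (1 : Fin 3) := by
        decide
      simp only [Wpt, Equiv.Perm.mul_apply, h3, h0]

/-- shift of family `F` from part `c` to part `c'` -/
def shf (F c c' : Fin 4) : ZMod q := fc q F c' - fc q F c

/-- exceptional directions between parts `c < c'` -/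
def Exc (c c' : Fin 4) (t : Fin 15 × ZMod q × G) : Prop :=
  t.1 = 0 ∧ ((∃ F, F ≠ c ∧ F ≠ c' ∧ t.2.1 = shf q F c c') ∨
    (c' = Fin.rev c ∧ ∃ h : Pp e, (t.2.1 = sft e q h.1 ∧ (t.2.2 = 1 ∨ t.2.2 = h.1⁻¹)) ∨
      (t.2.1 = - sft e q h.1 ∧ (t.2.2 = 1 ∨ t.2.2 = h.1))))

/-- matchings between parts `c < c'` -/
abbrev SS (c c' : Fin 4) : Type :=
  {t : Fin 15 × ZMod q × G // ¬ Exc e q c c' t} ⊕ ({F : Fin 4 // F ≠ c ∧ F ≠ c'} × {k : G // k ≠ 1})

/-- permutation attached to a matching -/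
def prm (c c' : Fin 4) : SS e q c c' → Equiv.Perm (Fin 15 × ZMod q × G)
  | .inl t =>
    { toFun := fun b => (b.1 + t.1.1, b.2.1 + t.1.2.1, b.2.2 * t.1.2.2)
      invFun := fun b => (b.1 - t.1.1, b.2.1 - t.1.2.1, b.2.2 * t.1.2.2⁻¹)
      left_inv := fun b => by simp
      right_inv := fun b => by simp }
  | .inr (F, k) =>
    { toFun := fun b => (b.1, b.2.1 + shf q F.1 c c',
        b.2.2 * (lb e gs q b.1 F.1 c (b.2.1 - fc q F.1 c))⁻¹ *
          lb e gs q b.1 F.1 c' (b.2.1 - fc q F.1 c) * k.1)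
      invFun := fun b => (b.1, b.2.1 - shf q F.1 c c',
        b.2.2 * k.1⁻¹ * (lb e gs q b.1 F.1 c' (b.2.1 - shf q F.1 c c' - fc q F.1 c))⁻¹ *
          lb e gs q b.1 F.1 c (b.2.1 - shf q F.1 c c' - fc q F.1 c))
      left_inv := fun b => by
        obtain ⟨r, j, x⟩ := b
        simp [mul_assoc]
      right_inv := fun b => by
        obtain ⟨r, j, x⟩ := b
        simp [mul_assoc] }

/-- partner of a part in the one-factor `i` of the parts -/
def pr (i : Fin 3) : Fin 4 → Fin 4 := ![![1, 0, 3, 2], ![2, 3, 0, 1], ![3, 2, 1, 0]] i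

lemma pr_invol (i : Fin 3) (c : Fin 4) : pr i (pr i c) = c := by revert i c; decide

lemma pr_ne (i : Fin 3) (c : Fin 4) : pr i c ≠ c := by revert i c; decide

lemma pr_cover (c c' : Fin 4) (h : c ≠ c') : ∃ i, pr i c = c' := by revert c c' h; decide

end Defs

/-- all the data -/
structure Dat (G : Type) [Group G] [Fintype G] (q : ℕ) where
  e : G ≃ Fin (Fintype.card G)
  gs : G
  hgs : gs ≠ 1
  i1 : ZMod (15 * q - 1) → Fin 15 × ZMod q → Fin 15 × ZMod q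
  i1_inv : ∀ k x, i1 k (i1 k x) = x
  i1_ne : ∀ k x, i1 k x ≠ x
  i1_cov : ∀ x y, x ≠ y → ∃ k, i1 k x = y
  i2 : ZMod (q - 1) → ZMod q → ZMod q
  i2_inv : ∀ k x, i2 k (i2 k x) = x
  i2_ne : ∀ k x, i2 k x ≠ x
  i2_cov : ∀ x y, x ≠ y → ∃ k, i2 k x = y
  ord : Fin 15 × ZMod q → ℕ
  ord_inj : Function.Injective ord
  ord2 : ZMod q → ℕ
  ord2_inj : Function.Injective ord2
  N : Fin 3 → ℕ
  eqv : ∀ (i : Fin 3) (c : Fin 4), c < pr i c → Fin (N i) ≃ SS e q c (pr i c)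

namespace Dat

variable {G : Type} [Group G] [Fintype G] {q : ℕ} (D : Dat G q)

/-- colours -/
abbrev CC : Type :=
  {h : G // h ≠ 1 ∧ h * h = 1} ⊕ ({g : G // g ≠ 1} × ZMod (15 * q - 1)) ⊕
    (ZMod (q - 1) × Fin 15) ⊕ (Σ i : Fin 3, Fin (D.N i))

/-- permutation used from part `c` to its partner -/
def gp (i : Fin 3) (k : Fin (D.N i)) (c : Fin 4) : Equiv.Perm (Fin 15 × ZMod q × G) :=
  if h : c < pr i c then prm D.e D.gs q c (pr i c) (D.eqv i c h k) else 1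

/-- rearrangement of coordinates -/
def mkp (c : Fin 4) (b : Fin 15 × ZMod q × G) : HH G q := (b.1, c, b.2)

/-- the matchings -/
def mu : D.CC → HH G q → HH G q
  | .inl h, p => (p.1, p.2.1, p.2.2.1, p.2.2.2 * h.1)
  | .inr (.inl (g, k)), p =>
    ((D.i1 k (p.1, p.2.2.1)).1, p.2.1, (D.i1 k (p.1, p.2.2.1)).2,
      if D.ord (p.1, p.2.2.1) < D.ord (D.i1 k (p.1, p.2.2.1)) then p.2.2.2 * g.1
      else p.2.2.2 * g.1⁻¹)
  | .inr (.inr (.inl (k, d))), p =>
    (if D.ord2 p.2.2.1 < D.ord2 (D.i2 k p.2.2.1) then p.1 + d else p.1 - d, p.2.1,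
      D.i2 k p.2.2.1, p.2.2.2)
  | .inr (.inr (.inr ⟨i, k⟩)), p =>
    mkp (pr i p.2.1) (if p.2.1 < pr i p.2.1 then D.gp i k p.2.1 (p.1, p.2.2)
      else (D.gp i k (pr i p.2.1)).symm (p.1, p.2.2))

lemma mu_invol (c : D.CC) (p : HH G q) : D.mu c (D.mu c p) = p := by
  obtain ⟨r, c0, j, x⟩ := p
  rcases c with h | ⟨g, k⟩ | ⟨k, d⟩ | ⟨i, k⟩
  · simp only [mu]
    rw [mul_assoc, h.2.2, mul_one]
  · simp only [mu]
    rw [D.i1_inv]
    by_cases hlt : D.ord (r, j) < D.ord (D.i1 k (r, j))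
    · have hnlt : ¬ D.ord (D.i1 k (r, j)) < D.ord (r, j) := by omega
      have e1 : ((D.i1 k (r, j)).1, (D.i1 k (r, j)).2) = D.i1 k (r, j) := rfl
      rw [e1, if_pos hlt, if_neg hnlt]
      simp
    · have hne : D.ord (D.i1 k (r, j)) ≠ D.ord (r, j) := fun hh => D.i1_ne k _ (D.ord_inj hh)
      have hnlt : D.ord (D.i1 k (r, j)) < D.ord (r, j) := by omega
      have e1 : ((D.i1 k (r, j)).1, (D.i1 k (r, j)).2) = D.i1 k (r, j) := rfl
      rw [e1, if_neg hlt, if_pos hnlt]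
      simp
  · simp only [mu]
    rw [D.i2_inv]
    by_cases hlt : D.ord2 j < D.ord2 (D.i2 k j)
    · have hnlt : ¬ D.ord2 (D.i2 k j) < D.ord2 j := by omega
      rw [if_pos hlt, if_neg hnlt]
      simp
    · have hne : D.ord2 (D.i2 k j) ≠ D.ord2 j := fun hh => D.i2_ne k _ (D.ord2_inj hh)
      have hnlt : D.ord2 (D.i2 k j) < D.ord2 j := by omega
      rw [if_neg hlt, if_pos hnlt]
      simp
  · simp only [mu, mkp]
    rw [pr_invol]
    by_cases hlt : c0 < pr i c0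
    · have hnlt : ¬ pr i c0 < c0 := not_lt.2 hlt.le
      rw [if_pos hlt, if_neg hnlt]
      simp
    · have hne := pr_ne i c0
      have hnlt : pr i c0 < c0 := lt_of_le_of_ne (not_lt.1 hlt) hne
      rw [if_neg hlt, if_pos hnlt]
      simp

end Dat

end Pool.Agent.Lib_helper60.Sts
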