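import Pool.Agent.Lib_helper60.Sts.Cover

set_option autoImplicit false
set_option linter.unusedSectionVars false

namespace Pool.Agent.Lib_helper60.Sts

section
variable {G : Type} [Group G] [Fintype G] (e : G ≃ Fin (Fintype.card G))

/-- the involutions, the identity, and the two halves -/
lemma card_split : Nat.card {h : G // h ≠ 1 ∧ h * h = 1} + 1 + 2 * Nat.card (Pp e)
    = Fintype.card G := by
  classical
  have hE : Function.Bijective (fun s : {h : G // h ≠ 1 ∧ h * h = 1} ⊕ Unit ⊕ (Pp e) ⊕ (Pp e) =>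
      (match s with
        | .inl h => h.1
        | .inr (.inl _) => 1
        | .inr (.inr (.inl h)) => h.1
        | .inr (.inr (.inr h)) => h.1⁻¹ : G)) := by
    constructor
    · have hp1 : ∀ h : Pp e, h.1 ≠ 1 := by
        rintro ⟨h, hh⟩ h1
        simp only at h1
        subst h1
        simp at hh
      have hp2 : ∀ h : Pp e, h.1 * h.1 ≠ 1 := by
        rintro ⟨h, hh⟩ h1
        simp only at h1
        rw [← eq_inv_iff_mul_eq_one] at h1
        rw [← h1] at hh
        exact lt_irrefl _ hh
      have hp3 : ∀ h h' : Pp e, h.1 ≠ h'.1⁻¹ := by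
        rintro ⟨h, hh⟩ ⟨h', hh'⟩ h1
        simp only at h1
        subst h1
        rw [inv_inv] at hh
        exact lt_asymm hh hh'
      rintro (⟨a, ha1, ha2⟩ | _ | a | a) (⟨b, hb1, hb2⟩ | _ | b | b) hab
      · simp only at hab; subst hab; rfl
      · simp only at hab; exact absurd hab ha1
      · simp only at hab; exact absurd (by rw [← hab]; exact ha2) (hp2 b)
      · simp only at hab
        exfalso
        apply hp2 b
        have : (b.1 * b.1)⁻¹ = 1 := by rw [mul_inv_rev, ← hab]; exact ha2
        exact inv_eq_one.1 this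
      · simp only at hab; exact absurd hab.symm hb1
      · rfl
      · simp only at hab; exact absurd hab.symm (hp1 b)
      · simp only at hab
        exact absurd (by simpa using hab.symm) (hp1 b)
      · simp only at hab; exact absurd (by rw [hab]; exact hb2) (hp2 a)
      · simp only at hab; exact absurd hab (hp1 a)
      · simp only at hab; rw [Subtype.ext hab]
      · simp only at hab; exact absurd hab (hp3 a b)
      · simp only at hab
        exfalso
        apply hp2 a
        have : (a.1 * a.1)⁻¹ = 1 := by rw [mul_inv_rev, hab]; exact hb2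
        exact inv_eq_one.1 this
      · simp only at hab
        exact absurd (by simpa using hab) (hp1 a)
      · simp only at hab; exact absurd hab.symm (hp3 b a)
      · simp only at hab
        rw [inv_inj] at hab
        rw [Subtype.ext hab]
    · intro g
      by_cases h1 : g = 1
      · exact ⟨.inr (.inl ()), h1.symm⟩
      by_cases h2 : g * g = 1
      · exact ⟨.inl ⟨g, h1, h2⟩, rfl⟩
      have hne : e g ≠ e g⁻¹ := by
        intro h
        apply h2
        rw [← eq_inv_iff_mul_eq_one]
        exact e.injective h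
      rcases lt_or_gt_of_ne hne with h | h
      · exact ⟨.inr (.inr (.inl ⟨g, h⟩)), rfl⟩
      · exact ⟨.inr (.inr (.inr ⟨g⁻¹, by simpa using h⟩)), by simp⟩
  have := Nat.card_eq_of_bijective _ hE
  rw [Nat.card_sum, Nat.card_sum, Nat.card_sum, Nat.card_unique (α := Unit),
    Nat.card_eq_fintype_card (α := G)] at this
  omega

end

section
variable {G : Type} [Group G] [Fintype G] (e : G ≃ Fin (Fintype.card G)) (q : ℕ)

/-- parametrization of the exceptional directions, transversal part -/
def exA (c c' : Fin 4) (s : {F : Fin 4 // F ≠ c ∧ F ≠ c'} × G) : Fin 15 × ZMod q × G :=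
  (0, shf q s.1.1 c c', s.2)

/-- parametrization of the exceptional directions, pure part -/
def exB (s : Pp e × Bool × Bool) : Fin 15 × ZMod q × G :=
  match s with
  | (h, true, true) => (0, sft e q h.1, 1)
  | (h, true, false) => (0, sft e q h.1, h.1⁻¹)
  | (h, false, true) => (0, -sft e q h.1, 1)
  | (h, false, false) => (0, -sft e q h.1, h.1)

/-- numerical shift of a family -/
def shn (F c c' : Fin 4) : ℕ := F.val * (c'.val - c.val)

lemma shf_eq (F c c' : Fin 4) (h : c < c') : shf q F c c' = ((shn F c c' : ℕ) : ZMod q) := by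
  have h2 : c.val ≤ c'.val := le_of_lt (Fin.lt_def.1 h)
  simp only [shf, fc, shn]
  rw [Nat.mul_sub, Nat.cast_sub (Nat.mul_le_mul_left _ h2)]

lemma shn_lt (F c c' : Fin 4) : shn F c c' < 10 := by
  revert F c c'; decide

lemma shn_inj (F F' c c' : Fin 4) (h : c < c') (hF : shn F c c' = shn F' c c') : F = F' := by
  revert F F' c c'; decide

variable {q}

lemma natCast_inj {a b : ℕ} (ha : a < q) (hb : b < q) (h : (a : ZMod q) = (b : ZMod q)) : a = b := by
  rw [ZMod.natCast_eq_natCast_iff'] at h
  rwa [Nat.mod_eq_of_lt ha, Nat.mod_eq_of_lt hb] at h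

lemma neg_sft (h : G) (hq : Fintype.card G + 10 ≤ q) :
    -sft e q h = ((q - ((e h : ℕ) + 10) : ℕ) : ZMod q) := by
  have := (e h).2
  rw [Nat.cast_sub (by omega)]
  simp [sft]

variable (hq : 2 * Fintype.card G + 40 ≤ q)
include hq

lemma sft_inj (h h' : G) (hh : sft e q h = sft e q h') : h = h' := by
  have h1 := (e h).2
  have h2 := (e h').2
  have := natCast_inj (q := q) (by omega) (by omega) hh
  exact e.injective (Fin.ext (by omega))

lemma sft_ne_neg (h h' : G) : sft e q h ≠ - sft e q h' := by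
  intro hh
  have h1 := (e h).2
  have h2 := (e h').2
  rw [neg_sft e h' (by omega)] at hh
  have := natCast_inj (q := q) (by omega) (by omega) hh
  omega

lemma shf_ne_sft (F c c' : Fin 4) (hc : c < c') (h : G) : shf q F c c' ≠ sft e q h := by
  intro hh
  have h1 := (e h).2
  rw [shf_eq q F c c' hc] at hh
  have h3 := shn_lt F c c'
  have := natCast_inj (q := q) (by omega) (by omega) hh
  omega

lemma shf_ne_neg (F c c' : Fin 4) (hc : c < c') (h : G) : shf q F c c' ≠ - sft e q h := by
  intro hh
  have h1 := (e h).2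
  rw [shf_eq q F c c' hc, neg_sft e h (by omega)] at hh
  have h3 := shn_lt F c c'
  have := natCast_inj (q := q) (by omega) (by omega) hh
  omega

omit hq in
lemma shf_inj (hq : 10 ≤ q) (F F' c c' : Fin 4) (hc : c < c') (hF : shf q F c c' = shf q F' c c') :
    F = F' := by
  rw [shf_eq q F c c' hc, shf_eq q F' c c' hc] at hF
  have h3 := shn_lt F c c'
  have h4 := shn_lt F' c c'
  have := natCast_inj (q := q) (by omega) (by omega) hF
  exact shn_inj F F' c c' hc this

lemma exA_inj (c c' : Fin 4) (hc : c < c') : Function.Injective (exA (G := G) q c c') := by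
  rintro ⟨F, g⟩ ⟨F', g'⟩ h
  simp only [exA, Prod.mk.injEq, true_and] at h
  obtain ⟨h1, h2⟩ := h
  rw [Subtype.ext (shf_inj (by omega) _ _ c c' hc h1), h2]

omit hq in
lemma Pp_ne_one (h : Pp e) : h.1 ≠ 1 := by
  obtain ⟨h, hh⟩ := h
  intro h1
  simp only at h1
  subst h1
  simp at hh

lemma exB_inj : Function.Injective (exB e q) := by
  rintro ⟨h, a, b⟩ ⟨h', a', b'⟩ hh
  have n1 := Pp_ne_one e h
  have n2 := Pp_ne_one e h'
  have n3 : h.1⁻¹ ≠ 1 := by simpa using n1
  have n4 : h'.1⁻¹ ≠ 1 := by simpa using n2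
  rcases a <;> rcases b <;> rcases a' <;> rcases b' <;>
    simp only [exB, Prod.mk.injEq, true_and] at hh
  all_goals first
    | (have := Subtype.ext (sft_inj e hq _ _ (neg_injective hh.1)); subst this; rfl)
    | (have := Subtype.ext (sft_inj e hq _ _ hh.1); subst this; rfl)
    | exact absurd hh.2 n1
    | exact absurd hh.2.symm n2
    | exact absurd hh.2 n3
    | exact absurd hh.2.symm n4
    | exact absurd hh.1.symm (sft_ne_neg e hq _ _)
    | exact absurd hh.1 (sft_ne_neg e hq _ _)

lemma exA_ne_exB (c c' : Fin 4) (hc : c < c') (s : {F : Fin 4 // F ≠ c ∧ F ≠ c'} × G)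
    (t : Pp e × Bool × Bool) : exA q c c' s ≠ exB e q t := by
  obtain ⟨F, g⟩ := s
  obtain ⟨h, a, b⟩ := t
  intro hh
  rcases a <;> rcases b <;> simp only [exA, exB, Prod.mk.injEq, true_and] at hh
  all_goals first
    | exact absurd hh.1 (shf_ne_neg e hq _ _ _ hc _)
    | exact absurd hh.1 (shf_ne_sft e hq _ _ _ hc _)

lemma card_exc_ne (c c' : Fin 4) (hc : c < c') (hr : c' ≠ Fin.rev c) :
    Nat.card {t : Fin 15 × ZMod q × G // Exc e q c c' t} = 2 * Fintype.card G := by
  have hb : Function.Bijective (fun s : {F : Fin 4 // F ≠ c ∧ F ≠ c'} × G =>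
      (⟨exA q c c' s, rfl, .inl ⟨s.1.1, s.1.2.1, s.1.2.2, rfl⟩⟩ :
        {t : Fin 15 × ZMod q × G // Exc e q c c' t})) := by
    constructor
    · intro s t hst
      exact exA_inj hq c c' hc (congrArg Subtype.val hst)
    · rintro ⟨⟨t1, t2, t3⟩, h1, h2⟩
      simp only at h1 h2
      subst h1
      rcases h2 with ⟨F, hF1, hF2, rfl⟩ | ⟨h2, _⟩
      · exact ⟨(⟨F, hF1, hF2⟩, t3), rfl⟩
      · exact absurd h2 hr
  rw [← Nat.card_eq_of_bijective _ hb, Nat.card_prod, Nat.card_eq_fintype_card (α := G)]
  congr 1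
  rw [Nat.card_eq_fintype_card]
  have := hc.ne
  clear hb hr hq hc
  revert c c'
  decide

lemma card_exc_eq (c : Fin 4) (hc : c < Fin.rev c) :
    Nat.card {t : Fin 15 × ZMod q × G // Exc e q c (Fin.rev c) t}
      = 2 * Fintype.card G + 4 * Nat.card (Pp e) := by
  have hex : ∀ s : Pp e × Bool × Bool, Exc e q c (Fin.rev c) (exB e q s) := by
    rintro ⟨h, a, b⟩
    rcases a <;> rcases b
    · exact ⟨rfl, .inr ⟨rfl, h, .inr ⟨rfl, .inr rfl⟩⟩⟩
    · exact ⟨rfl, .inr ⟨rfl, h, .inr ⟨rfl, .inl rfl⟩⟩⟩
    · exact ⟨rfl, .inr ⟨rfl, h, .inl ⟨rfl, .inr rfl⟩⟩⟩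
    · exact ⟨rfl, .inr ⟨rfl, h, .inl ⟨rfl, .inl rfl⟩⟩⟩
  have hb : Function.Bijective (fun s : ({F : Fin 4 // F ≠ c ∧ F ≠ Fin.rev c} × G) ⊕
      (Pp e × Bool × Bool) =>
      (match s with
        | .inl s => ⟨exA q c (Fin.rev c) s, rfl, .inl ⟨s.1.1, s.1.2.1, s.1.2.2, rfl⟩⟩
        | .inr s => ⟨exB e q s, hex s⟩ :
        {t : Fin 15 × ZMod q × G // Exc e q c (Fin.rev c) t})) := by
    constructor
    · rintro (s | s) (t | t) hst
      · have := exA_inj hq c _ hc (congrArg Subtype.val hst)
        rw [this]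
      · exact absurd (congrArg Subtype.val hst) (exA_ne_exB e hq c _ hc s t)
      · exact absurd (congrArg Subtype.val hst).symm (exA_ne_exB e hq c _ hc t s)
      · have := exB_inj e hq (congrArg Subtype.val hst)
        rw [this]
    · rintro ⟨⟨t1, t2, t3⟩, h1, h2⟩
      simp only at h1 h2
      subst h1
      rcases h2 with ⟨F, hF1, hF2, h3⟩ | ⟨_, h, ⟨h3, h4 | h4⟩ | ⟨h3, h4 | h4⟩⟩ <;>
        simp only at h3
      · exact ⟨.inl (⟨F, hF1, hF2⟩, t3), Subtype.ext (by simp [exA, h3])⟩
      all_goals simp only at h4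
      · exact ⟨.inr (h, true, true), Subtype.ext (by simp [exB, h3, h4])⟩
      · exact ⟨.inr (h, true, false), Subtype.ext (by simp [exB, h3, h4])⟩
      · exact ⟨.inr (h, false, true), Subtype.ext (by simp [exB, h3, h4])⟩
      · exact ⟨.inr (h, false, false), Subtype.ext (by simp [exB, h3, h4])⟩
  rw [← Nat.card_eq_of_bijective _ hb, Nat.card_sum, Nat.card_prod, Nat.card_prod, Nat.card_prod,
    Nat.card_eq_fintype_card (α := G)]
  have h2 : Nat.card {F : Fin 4 // F ≠ c ∧ F ≠ Fin.rev c} = 2 := by
    rw [Nat.card_eq_fintype_card]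
    clear hb hex hq hc
    revert c
    decide
  rw [h2]
  simp only [Nat.card_eq_fintype_card (α := Bool), Fintype.card_bool]
  ring

omit hq in
lemma card_SS_aux [NeZero q] (c c' : Fin 4) (hc : c < c') :
    Nat.card (SS e q c c') + Nat.card {t : Fin 15 × ZMod q × G // Exc e q c c' t} =
      15 * q * Fintype.card G + 2 * (Fintype.card G - 1) := by
  classical
  have h1 : Nat.card {t : Fin 15 × ZMod q × G // Exc e q c c' t} +
      Nat.card {t : Fin 15 × ZMod q × G // ¬ Exc e q c c' t} = 15 * q * Fintype.card G := by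
    rw [← Nat.card_sum, Nat.card_congr (Equiv.sumCompl _)]
    simp [mul_assoc]
  have h2 : Nat.card ({F : Fin 4 // F ≠ c ∧ F ≠ c'} × {k : G // k ≠ 1}) =
      2 * (Fintype.card G - 1) := by
    rw [Nat.card_prod, Nat.card_eq_fintype_card (α := {k : G // k ≠ 1})]
    congr 1
    · rw [Nat.card_eq_fintype_card]
      have := hc.ne
      clear h1 hc
      revert c c'
      decide
    · have := Fintype.card_subtype_compl (fun x : G => x = 1)
      simp only [Fintype.card_unique] at this
      convert this using 2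
  rw [Nat.card_sum, h2]
  omega

/-- number of matchings between two parts -/
def NN (n q J : ℕ) (i : Fin 3) : ℕ := if i = 2 then 15 * q * n - 2 - 4 * J else 15 * q * n - 2

omit hq in
lemma pr_two (c : Fin 4) : pr 2 c = Fin.rev c := by revert c; decide

omit hq in
lemma pr_ne_two (i : Fin 3) (hi : i ≠ 2) (c : Fin 4) : pr i c ≠ Fin.rev c := by
  revert i c; decide

lemma card_SS [NeZero q] (i : Fin 3) (c : Fin 4) (hc : c < pr i c) :
    Nat.card (SS e q c (pr i c)) = NN (Fintype.card G) q (Nat.card (Pp e)) i := by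
  have h1 := card_SS_aux (q := q) e c (pr i c) hc
  have hG : 0 < Fintype.card G := Fintype.card_pos
  unfold NN
  by_cases hi : i = 2
  · subst hi
    rw [if_pos rfl]
    rw [pr_two] at h1 hc ⊢
    rw [card_exc_eq e hq c hc] at h1
    omega
  · rw [if_neg hi]
    rw [card_exc_ne e hq c _ hc (pr_ne_two i hi c)] at h1
    omega

end

/-- existence of the data -/
theorem exists_dat {G : Type} [Group G] [Fintype G] (q : ℕ) (hq : 2 * Fintype.card G + 40 ≤ q)
    (he : Even q) (gs : G) (hgs : gs ≠ 1) : ∃ D : Dat G q,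
      ∀ i, D.N i = NN (Fintype.card G) q (Nat.card (Pp D.e)) i := by
  classical
  have : NeZero q := ⟨by omega⟩
  let e : G ≃ Fin (Fintype.card G) := Fintype.equivFin G
  obtain ⟨i1, h11, h12, h13⟩ := exists_onefact (Fin 15 × ZMod q) (15 * q)
    (by simp [ZMod.card]) (by exact Even.mul_left he 15) (by omega)
  obtain ⟨i2, h21, h22, h23⟩ := exists_onefact (ZMod q) q
    (by simp [ZMod.card]) he (by omega)
  have hS : ∀ (i : Fin 3) (c : Fin 4), c < pr i c →
      Nonempty (Fin (NN (Fintype.card G) q (Nat.card (Pp e)) i) ≃ SS e q c (pr i c)) := by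
    intro i c hc
    have h1 := card_SS e hq i c hc
    have hfin : Finite (SS e q c (pr i c)) := inferInstance
    rw [← h1]
    exact ⟨(Finite.equivFin _).symm⟩
  exact ⟨{ e := e, gs := gs, hgs := hgs, i1 := i1, i1_inv := h11, i1_ne := h12, i1_cov := h13,
           i2 := i2, i2_inv := h21, i2_ne := h22, i2_cov := h23,
           ord := fun x => Fintype.equivFin _ x,
           ord_inj := fun a b hab => (Fintype.equivFin _).injective (Fin.ext hab),
           ord2 := fun x => Fintype.equivFin _ x,
           ord2_inj := fun a b hab => (Fintype.equivFin _).injective (Fin.ext hab),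
           N := NN (Fintype.card G) q (Nat.card (Pp e)),
           eqv := fun i c hc => (hS i c hc).some }, fun i => rfl⟩

end Pool.Agent.Lib_helper60.Sts
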