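import Pool.Agent.Lib_helper60.Sts.Count

set_option autoImplicit false
set_option linter.unusedSectionVars false

namespace Pool.Agent.Lib_helper60.Sts

section
variable {G : Type} [Group G] [Fintype G] {q : ℕ}

lemma card_HH [NeZero q] : Nat.card (HH G q) = 60 * q * Fintype.card G := by
  simp only [HH]
  rw [Nat.card_eq_fintype_card]
  simp only [Fintype.card_prod, Fintype.card_fin, ZMod.card]
  ring

lemma card_offdiag : Nat.card {p : Fin 15 × Fin 15 // p.1 ≠ p.2} = 210 := by
  rw [Nat.card_eq_fintype_card]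
  simp only [ne_eq]
  rw [Fintype.card_subtype_compl]
  have h : Fintype.card {p : Fin 15 × Fin 15 // p.1 = p.2} = 15 := by
    have e : {p : Fin 15 × Fin 15 // p.1 = p.2} ≃ Fin 15 :=
      { toFun := fun p => p.1.1
        invFun := fun x => ⟨(x, x), rfl⟩
        left_inv := by rintro ⟨⟨a, b⟩, h⟩; simp only at h; subst h; rfl
        right_inv := fun x => rfl }
    rw [Fintype.card_congr e, Fintype.card_fin]
  rw [h]
  simp

lemma card_WW [NeZero q] (e : G ≃ Fin (Fintype.card G)) :
    Nat.card (WW e q) = (1200 + 360 * Nat.card (Pp e)) * q * Fintype.card G := by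
  simp only [WW, Nat.card_sum, Nat.card_prod, card_offdiag]
  have h3 : Nat.card (Equiv.Perm (Fin 3)) = 6 := by
    rw [Nat.card_eq_fintype_card, Fintype.card_perm]; simp [Nat.factorial]
  have h4 : Nat.card (Equiv.Perm (Fin 4)) = 24 := by
    rw [Nat.card_eq_fintype_card, Fintype.card_perm]; simp [Nat.factorial]
  rw [h3, h4]
  simp only [Nat.card_eq_fintype_card (α := Fin 4), Nat.card_eq_fintype_card (α := Fin 15),
    Nat.card_eq_fintype_card (α := ZMod q), Nat.card_eq_fintype_card (α := G), Fintype.card_fin,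
    ZMod.card]
  ring

lemma Pp_le (e : G ≃ Fin (Fintype.card G)) : 2 * Nat.card (Pp e) + 1 ≤ Fintype.card G := by
  have := card_split e
  omega

lemma card_CC (D : Dat G q) (hq : 1 < q)
    (hN : ∀ i, D.N i = NN (Fintype.card G) q (Nat.card (Pp D.e)) i) :
    Nat.card D.CC + 21 + 6 * Nat.card (Pp D.e) = 60 * q * Fintype.card G := by
  classical
  have : NeZero (15 * q - 1) := ⟨by omega⟩
  have : NeZero (q - 1) := ⟨by omega⟩
  have hs := card_split D.e
  have hG : 0 < Fintype.card G := Fintype.card_pos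
  have hk : Nat.card {g : G // g ≠ 1} = Fintype.card G - 1 := by
    rw [Nat.card_eq_fintype_card]
    have := Fintype.card_subtype_compl (fun x : G => x = 1)
    simp only [Fintype.card_unique] at this
    convert this using 2
  have hsig : Nat.card (Σ i : Fin 3, Fin (D.N i)) = 
      3 * (15 * q * Fintype.card G - 2) - 4 * Nat.card (Pp D.e) := by
    rw [Nat.card_eq_fintype_card, Fintype.card_sigma]
    simp only [Fintype.card_fin]
    rw [Fin.sum_univ_three, hN, hN, hN]
    simp only [NN]
    rw [if_neg (by decide), if_neg (by decide), if_pos trivial]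
    have : 4 * Nat.card (Pp D.e) + 2 ≤ 15 * q * Fintype.card G := by
      nlinarith
    omega
  have hz1 : Nat.card (ZMod (15 * q - 1)) = 15 * q - 1 := by
    rw [Nat.card_eq_fintype_card, ZMod.card]
  have hz2 : Nat.card (ZMod (q - 1)) = q - 1 := by
    rw [Nat.card_eq_fintype_card, ZMod.card]
  simp only [Dat.CC]
  rw [Nat.card_sum, Nat.card_sum, Nat.card_sum, Nat.card_prod, Nat.card_prod, hk, hsig, hz1, hz2,
    Nat.card_eq_fintype_card (α := Fin 15), Fintype.card_fin]
  obtain ⟨n, hn⟩ : ∃ n, Fintype.card G = n + 1 := ⟨Fintype.card G - 1, by omega⟩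
  obtain ⟨s, rfl⟩ : ∃ s, q = s + 2 := ⟨q - 2, by omega⟩
  rw [hn] at hs ⊢
  have e1 : 15 * (s + 2) - 1 = 15 * s + 29 := by omega
  have e2 : n + 1 - 1 = n := by omega
  have e3 : s + 2 - 1 = s + 1 := by omega
  rw [e1, e2, e3]
  have e4 : n * (15 * s + 29) = 15 * (n * s) + 29 * n := by ring
  have e5 : 15 * (s + 2) * (n + 1) = 15 * (n * s) + 15 * s + 30 * n + 30 := by ring
  have e6 : 60 * (s + 2) * (n + 1) = 60 * (n * s) + 60 * s + 120 * n + 120 := by ring
  rw [e4, e5, e6]
  generalize n * s = t
  omega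

theorem dat_counts (D : Dat G q) (hq : 1 < q)
    (hN : ∀ i, D.N i = NN (Fintype.card G) q (Nat.card (Pp D.e)) i)
    [Fintype (HH G q)] [Fintype (WW D.e q)] [Fintype D.CC] :
    Glue.Counts (HH G q) (WW D.e q) D.CC := by
  have : NeZero q := ⟨by omega⟩
  unfold Glue.Counts
  rw [← Nat.card_eq_fintype_card, ← Nat.card_eq_fintype_card, ← Nat.card_eq_fintype_card,
    card_WW, card_HH]
  have h1 := card_CC D hq hN
  generalize Nat.card D.CC = C at *
  generalize Nat.card (Pp D.e) = J at *
  have : 60 * q * Fintype.card G * (60 * q * Fintype.card G) =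
    (60 * q * Fintype.card G) * (C + 21 + 6 * J) := by rw [h1]
  rw [this]
  ring

end

end Pool.Agent.Lib_helper60.Sts
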