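import Pool.Agent.Lib_helper60.Sts.Build
import Pool.Agent.Lib_helper60.Sts.Assembly

set_option autoImplicit false

namespace Pool.Agent.Lib_helper60.Sts

lemma perm4_ex (c c' F : Fin 4) (h1 : c ≠ c') (h2 : F ≠ c) (h3 : F ≠ c') :
    ∃ τ : Equiv.Perm (Fin 4), τ 0 = c ∧ τ 1 = c' ∧ τ 3 = F := by
  revert c c' F; decide

lemma perm3_ex (a b : Fin 3) (h1 : a ≠ b) :
    ∃ σ : Equiv.Perm (Fin 3), σ 0 = a ∧ σ 1 = b := by
  revert a b; decide

section
variable {G : Type} [Group G] [Fintype G] (e : G ≃ Fin (Fintype.card G)) (gs : G) {q : ℕ}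

lemma cover_pu (r : Fin 15) (c : Fin 4) (j : ZMod q) (x : G) (h : Pp e) (a b : Fin 3)
    (hab : a ≠ b) (p p' : HH G q) (hp : pup e q r c j x h.1 a = p)
    (hp' : pup e q r c j x h.1 b = p') :
    ∃ w : WW e q, Wpt e gs q w 0 = p ∧ Wpt e gs q w 1 = p' := by
  obtain ⟨σ, h0, h1⟩ := perm3_ex a b hab
  refine ⟨.inr (.inl ((r, c, j, x, h), σ)), ?_, ?_⟩
  · simp only [Wpt]; rw [h0, hp]
  · simp only [Wpt]; rw [h1, hp']

end

namespace Dat

variable {G : Type} [Group G] [Fintype G] {q : ℕ} (D : Dat G q)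

lemma cover_same (r r' : Fin 15) (c : Fin 4) (j j' : ZMod q) (x x' : G) :
    ((r, c, j, x) : HH G q) = (r', c, j', x') ∨
    (∃ w : WW D.e q, Wpt D.e D.gs q w 0 = (r, c, j, x) ∧ Wpt D.e D.gs q w 1 = (r', c, j', x')) ∨
    (∃ k : D.CC, D.mu k (r, c, j, x) = (r', c, j', x')) := by
  by_cases hrj : ((r, j) : Fin 15 × ZMod q) = (r', j')
  · obtain ⟨rfl, rfl⟩ := Prod.mk.inj hrj
    obtain ⟨k, rfl⟩ : ∃ k, x' = x * k := ⟨x⁻¹ * x', by simp⟩
    by_cases hk : k = 1
    · left; rw [hk, mul_one]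
    right
    by_cases hkk : k * k = 1
    · right
      exact ⟨.inl ⟨k, hk, hkk⟩, rfl⟩
    left
    have hne : D.e k ≠ D.e k⁻¹ := by
      intro h
      have h2 := D.e.injective h
      apply hkk
      nth_rw 1 [h2]
      simp
    rcases lt_or_gt_of_ne hne with h | h
    · exact cover_pu D.e D.gs r c j x ⟨k, h⟩ 0 1 (by decide) _ _ (by simp [pup]) (by simp [pup])
    · exact cover_pu D.e D.gs r c j (x * k) ⟨k⁻¹, by simpa using h⟩ 1 0 (by decide) _ _
        (by simp [pup]) (by simp [pup])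
  · right
    obtain ⟨k, rfl⟩ : ∃ k, x' = x * k := ⟨x⁻¹ * x', by simp⟩
    by_cases hk : k = 1
    · subst hk
      rw [mul_one]
      by_cases hj : j = j'
      · subst hj
        left
        have hr : r ≠ r' := fun h => hrj (by rw [h])
        exact ⟨.inl ((c, j, x), ⟨(r, r'), hr⟩), by simp [Wpt], by simp [Wpt]⟩
      · right
        obtain ⟨m, hm⟩ := D.i2_cov j j' hj
        by_cases hlt : D.ord2 j < D.ord2 j'
        · refine ⟨.inr (.inr (.inl (m, r' - r))), ?_⟩
          simp only [mu]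
          rw [hm, if_pos hlt]
          simp
        · refine ⟨.inr (.inr (.inl (m, r - r'))), ?_⟩
          simp only [mu]
          rw [hm, if_neg hlt]
          simp
    · right
      obtain ⟨m, hm⟩ := D.i1_cov (r, j) (r', j') hrj
      by_cases hlt : D.ord (r, j) < D.ord (r', j')
      · refine ⟨.inr (.inl (⟨k, hk⟩, m)), ?_⟩
        simp only [mu]
        rw [hm, if_pos hlt]
      · refine ⟨.inr (.inl (⟨k⁻¹, by simpa using hk⟩, m)), ?_⟩
        simp only [mu]
        rw [hm, if_neg hlt]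
        simp

lemma mu_ss (c c' : Fin 4) (hcc : c < c') (s : SS D.e q c c') (r : Fin 15) (j : ZMod q) (x : G) :
    ∃ k : D.CC, D.mu k (r, c, j, x) = mkp c' (prm D.e D.gs q c c' s (r, j, x)) := by
  obtain ⟨i, rfl⟩ := pr_cover c c' hcc.ne
  refine ⟨.inr (.inr (.inr ⟨i, (D.eqv i c hcc).symm s⟩)), ?_⟩
  simp only [mu]
  rw [if_pos hcc]
  simp only [gp]
  rw [dif_pos hcc]
  simp

lemma cover_lt (r r' : Fin 15) (c c' : Fin 4) (hcc : c < c') (j j' : ZMod q) (x x' : G) :
    (∃ w : WW D.e q, Wpt D.e D.gs q w 0 = (r, c, j, x) ∧ Wpt D.e D.gs q w 1 = (r', c', j', x')) ∨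
    (∃ k : D.CC, D.mu k (r, c, j, x) = (r', c', j', x')) := by
  by_cases hE : Exc D.e q c c' (r' - r, j' - j, x⁻¹ * x')
  · obtain ⟨hr0, hE⟩ := hE
    simp only at hr0 hE
    have hr : r' = r := sub_eq_zero.1 hr0
    subst hr
    rcases hE with ⟨F, hF1, hF2, hF⟩ | ⟨hrev, h, hh⟩
    · by_cases hk : (lb D.e D.gs q r' F c' (j - fc q F c))⁻¹ * lb D.e D.gs q r' F c (j - fc q F c)
          * x⁻¹ * x' = 1
      · left
        obtain ⟨τ, h0, h1, h3⟩ := perm4_ex c c' F hcc.ne hF1 hF2
        refine ⟨.inr (.inr ((r', j - fc q F c, x * (lb D.e D.gs q r' F c (j - fc q F c))⁻¹), τ)),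
          ?_, ?_⟩
        · simp only [Wpt]
          rw [h3]
          have : τ (Fin.castSucc 0) = c := h0
          rw [this]
          simp [trp]
        · simp only [Wpt]
          rw [h3]
          have : τ (Fin.castSucc 1) = c' := h1
          rw [this]
          simp only [trp]
          have h5 : j' = j - fc q F c + fc q F c' := by
            have : j' = j + shf q F c c' := by rw [← hF]; ring
            rw [this, shf]; ring
          have h6 : x' = x * (lb D.e D.gs q r' F c (j - fc q F c))⁻¹ *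
              lb D.e D.gs q r' F c' (j - fc q F c) := by
            have := hk
            rw [mul_assoc, mul_assoc, inv_mul_eq_one] at this
            rw [this]
            group
          rw [← h5, ← h6]
      · right
        obtain ⟨k, hk2⟩ := D.mu_ss c c' hcc (.inr (⟨F, hF1, hF2⟩, ⟨_, hk⟩)) r' j x
        refine ⟨k, ?_⟩
        rw [hk2]
        simp only [prm, mkp, Equiv.coe_fn_mk]
        rw [← hF]
        simp only [add_sub_cancel]
        congr 3
        group
    · left
      subst hrev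
      rcases hh with ⟨hj, hx | hx⟩ | ⟨hj, hx | hx⟩
      · have h1 : x' = x := by rw [inv_mul_eq_one] at hx; exact hx.symm
        have h2 : j' = j + sft D.e q h.1 := by rw [← hj]; ring
        exact cover_pu D.e D.gs r' c j x h 0 2 (by decide) _ _ (by simp [pup])
          (by simp [pup, h1, h2])
      · have h1 : x' = x * h.1⁻¹ := by rw [← hx]; simp
        have h2 : j' = j + sft D.e q h.1 := by rw [← hj]; ring
        exact cover_pu D.e D.gs r' c j x' h 1 2 (by decide) _ _ (by simp [pup, h1])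
          (by simp [pup, h2])
      · have h1 : x' = x := by rw [inv_mul_eq_one] at hx; exact hx.symm
        have h2 : j = j' + sft D.e q h.1 := by
          have : sft D.e q h.1 = - (j' - j) := by rw [hj]; ring
          rw [this]; ring
        exact cover_pu D.e D.gs r' (Fin.rev c) j' x' h 2 0 (by decide) _ _
          (by simp [pup, h1, h2]) (by simp [pup])
      · have h1 : x' = x * h.1 := by rw [← hx]; simp
        have h2 : j = j' + sft D.e q h.1 := by
          have : sft D.e q h.1 = - (j' - j) := by rw [hj]; ring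
          rw [this]; ring
        exact cover_pu D.e D.gs r' (Fin.rev c) j' x h 2 1 (by decide) _ _
          (by simp [pup, h2]) (by simp [pup, h1])
  · right
    obtain ⟨k, hk2⟩ := D.mu_ss c c' hcc (.inl ⟨_, hE⟩) r j x
    refine ⟨k, ?_⟩
    rw [hk2]
    simp [prm, mkp]

lemma cover (x y : HH G q) : x = y ∨
    (∃ w : WW D.e q, Wpt D.e D.gs q w 0 = x ∧ Wpt D.e D.gs q w 1 = y) ∨
    (∃ k : D.CC, D.mu k x = y) := by
  obtain ⟨r, c, j, x⟩ := x
  obtain ⟨r', c', j', x'⟩ := y
  rcases lt_trichotomy c c' with h | h | h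
  · right; exact D.cover_lt r r' c c' h j j' x x'
  · subst h; exact D.cover_same r r' c j j' x x'
  · right
    rcases D.cover_lt r' r c' c h j' j x' x with ⟨w, h1, h2⟩ | ⟨k, hk⟩
    · left
      obtain ⟨w', g1, g2, g3⟩ := W_swap D.e D.gs q w
      exact ⟨w', by rw [g1, h2], by rw [g2, h1]⟩
    · right
      exact ⟨k, by rw [← hk, D.mu_invol]⟩

/-- the glue data -/
def glue : Glue (HH G q) (WW D.e q) D.CC where
  a := fun w => Wpt D.e D.gs q w 0
  b := fun w => Wpt D.e D.gs q w 1
  t := fun w => Wpt D.e D.gs q w 2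
  μ := D.mu
  swap := W_swap D.e D.gs q
  rot := W_rot D.e D.gs q
  invol := D.mu_invol
  cover := D.cover

end Dat

end Pool.Agent.Lib_helper60.Sts
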