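import Pool.Agent.Lib_helper60.Sts.Rigid2
import Pool.Agent.Lib_helper60.Sts.Bose

set_option autoImplicit false
set_option linter.unusedSectionVars false

namespace Pool.Agent.Lib_helper60.Sts

section generic
variable {H W C F : Type} [Fintype H] [Fintype W] [Fintype C] [Fintype F] (D : Glue H W C)
  (hc : Glue.Counts H W C) (opF : F → F → F) (e : C ≃ F)

include hc in
/-- the subsystem `F` is invariant -/
lemma F_inv (M : ℕ) (hM : Fintype.card H ≤ Fintype.card C + M)
    (hsub : ∀ S : Finset F, (∀ u ∈ S, ∀ v ∈ S, opF u v ∈ S) → S ≠ Finset.univ →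
      2 * S.card + M < Fintype.card F)
    (α : Equiv.Perm (F ⊕ H))
    (hα : ∀ u v, α (glueOp D opF e u v) = glueOp D opF e (α u) (α v)) (f : F) :
    ∃ f', α (.inl f) = .inl f' := by
  classical
  rcases hx : α (.inl f) with f' | x
  · exact ⟨f', rfl⟩
  exfalso
  let S : Finset F := Finset.univ.filter (fun f' => ∃ g, α (.inl g) = .inl f')
  have hS : ∀ f', f' ∈ S ↔ ∃ g, α (.inl g) = .inl f' := by intro f'; simp [S]
  let F' : Finset (F ⊕ H) := Finset.univ.image (fun g : F => α (.inl g))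
  have hF' : F'.card = Fintype.card F := by
    rw [Finset.card_image_of_injective _ (fun u v huv => Sum.inl_injective (α.injective huv)),
      Finset.card_univ]
  have hclosed : ∀ u ∈ S, ∀ v ∈ S, opF u v ∈ S := by
    intro u hu v hv
    obtain ⟨g, hg⟩ := (hS u).1 hu
    obtain ⟨g', hg'⟩ := (hS v).1 hv
    rw [hS]
    refine ⟨opF g g', ?_⟩
    have := hα (.inl g) (.inl g')
    rw [hg, hg', glueOp_ff, glueOp_ff] at this
    exact this
  have hSF : S.image (Sum.inl : F → F ⊕ H) ⊆ F' := by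
    intro y hy
    obtain ⟨s, hs, rfl⟩ := Finset.mem_image.1 hy
    obtain ⟨g, hg⟩ := (hS s).1 hs
    exact Finset.mem_image.2 ⟨g, Finset.mem_univ _, hg⟩
  have hcardS : (S.image (Sum.inl : F → F ⊕ H)).card = S.card :=
    Finset.card_image_of_injective _ Sum.inl_injective
  have hne : S ≠ Finset.univ := by
    intro hcon
    have h1 : insert (Sum.inr x) (S.image (Sum.inl : F → F ⊕ H)) ⊆ F' := by
      intro y hy
      rcases Finset.mem_insert.1 hy with rfl | hy
      · exact Finset.mem_image.2 ⟨f, Finset.mem_univ _, hx⟩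
      · exact hSF hy
    have h2 := Finset.card_le_card h1
    rw [Finset.card_insert_of_notMem (by simp), hcardS, hF', hcon, Finset.card_univ] at h2
    omega
  have h3 := hsub S hclosed hne
  let R : Finset H := Finset.univ.image (fun c : C => D.μ c x)
  have hR : R.card = Fintype.card C := by
    rw [Finset.card_image_of_injective _ (fun u v huv => Glue.mu_inj hc huv), Finset.card_univ]
  have h4 : F' ⊆ S.image Sum.inl ∪ (S.image (fun s => (Sum.inr (D.μ (e.symm s) x) : F ⊕ H)) ∪
      (Rᶜ).image Sum.inr) := by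
    intro y hy
    obtain ⟨g, _, rfl⟩ := Finset.mem_image.1 hy
    rcases hg : α (.inl g) with f' | y
    · apply Finset.mem_union_left
      exact Finset.mem_image.2 ⟨f', (hS f').2 ⟨g, hg⟩, rfl⟩
    · apply Finset.mem_union_right
      by_cases hyR : y ∈ R
      · apply Finset.mem_union_left
        obtain ⟨c, _, hcy⟩ := Finset.mem_image.1 hyR
        refine Finset.mem_image.2 ⟨e c, (hS _).2 ⟨opF f g, ?_⟩, ?_⟩
        · have h5 := hα (.inl f) (.inl g)
          rw [hx, hg, glueOp_ff, ← hcy, glueOp_mu D hc] at h5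
          exact h5
        · simp [hcy]
      · apply Finset.mem_union_right
        exact Finset.mem_image.2 ⟨y, by simpa using hyR, rfl⟩
  have h5 := Finset.card_le_card h4
  have h6 := Finset.card_union_le (S.image (Sum.inl : F → F ⊕ H))
    (S.image (fun s => (Sum.inr (D.μ (e.symm s) x) : F ⊕ H)) ∪ (Rᶜ).image Sum.inr)
  have h7 := Finset.card_union_le (S.image (fun s => (Sum.inr (D.μ (e.symm s) x) : F ⊕ H)))
    ((Rᶜ).image Sum.inr)
  have h8 : (S.image (fun s => (Sum.inr (D.μ (e.symm s) x) : F ⊕ H))).card ≤ S.card :=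
    Finset.card_image_le
  have h9 : ((Rᶜ).image (Sum.inr : H → F ⊕ H)).card ≤ (Rᶜ).card := Finset.card_image_le
  have h10 : (Rᶜ).card = Fintype.card H - Fintype.card C := by
    rw [Finset.card_compl, hR]
  omega

include hc in
/-- description of automorphisms -/
lemma aut_split (M : ℕ) (hM : Fintype.card H ≤ Fintype.card C + M)
    (hsub : ∀ S : Finset F, (∀ u ∈ S, ∀ v ∈ S, opF u v ∈ S) → S ≠ Finset.univ →
      2 * S.card + M < Fintype.card F)
    (α : Equiv.Perm (F ⊕ H))
    (hα : ∀ u v, α (glueOp D opF e u v) = glueOp D opF e (α u) (α v)) :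
    ∃ (αF : F → F) (αH : H → H), (∀ f, α (.inl f) = .inl (αF f)) ∧
      (∀ y, α (.inr y) = .inr (αH y)) ∧ Function.Injective αH ∧
      (∀ x y z, (∃ w, D.a w = x ∧ D.b w = y ∧ D.t w = z) ↔
        (∃ w, D.a w = αH x ∧ D.b w = αH y ∧ D.t w = αH z)) := by
  classical
  choose αF hαF using F_inv D hc opF e M hM hsub α hα
  have hinj : Function.Injective αF := by
    intro u v huv
    have : α (.inl u) = α (.inl v) := by rw [hαF, hαF, huv]
    exact Sum.inl_injective (α.injective this)
  have hsurj : Function.Surjective αF := Finite.surjective_of_injective hinj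
  have hH : ∀ y : H, ∃ y', α (.inr y) = .inr y' := by
    intro y
    rcases hy : α (.inr y) with f | y'
    · obtain ⟨g, rfl⟩ := hsurj f
      rw [← hαF] at hy
      exact absurd (α.injective hy) (by simp)
    · exact ⟨y', rfl⟩
  choose αH hαH using hH
  have hinjH : Function.Injective αH := by
    intro u v huv
    have : α (.inr u) = α (.inr v) := by rw [hαH, hαH, huv]
    exact Sum.inr_injective (α.injective this)
  refine ⟨αF, αH, hαF, hαH, hinjH, ?_⟩
  intro x y z
  constructor
  · rintro ⟨w, rfl, rfl, rfl⟩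
    have h1 := hα (.inr (D.a w)) (.inr (D.b w))
    rw [glueOp_w D hc, hαH, hαH, hαH] at h1
    exact glueOp_inr D hc opF e (fun h => Glue.ab_ne hc (D := D) w (hinjH h)) h1.symm
  · rintro ⟨w, h1, h2, h3⟩
    have h4 := glueOp_w D hc opF e w
    rw [h1, h2, h3, ← hαH, ← hαH, ← hαH, ← hα] at h4
    have h5 := α.injective h4
    have h6 : x ≠ y := by
      intro h
      apply Glue.ab_ne hc (D := D) w
      rw [h1, h2, h]
    exact glueOp_inr D hc opF e h6 h5

end generic

namespace Dat

variable {G : Type} [Group G] [Fintype G] {q : ℕ} (D : Dat G q)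

/-- left multiplication -/
def lam (a : G) (p : HH G q) : HH G q := (p.1, p.2.1, p.2.2.1, a * p.2.2.2)

lemma lam_one (p : HH G q) : lam (1 : G) p = p := by simp [lam]

lemma lam_mul (a b : G) (p : HH G q) : lam (a * b) p = lam a (lam b p) := by
  simp [lam, mul_assoc]

/-- left multiplication as a permutation -/
def lamE (a : G) : Equiv.Perm (HH G q) where
  toFun := lam a
  invFun := lam a⁻¹
  left_inv p := by rw [← lam_mul]; simp [lam_one]
  right_inv p := by rw [← lam_mul]; simp [lam_one]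

lemma lam_W (a : G) (w : WW D.e q) : ∃ w' : WW D.e q, ∀ i,
    Wpt D.e D.gs q w' i = lam a (Wpt D.e D.gs q w i) := by
  rcases w with ⟨⟨c, j, x⟩, rr⟩ | ⟨⟨r, c, j, x, h⟩, σ⟩ | ⟨⟨r, j, x⟩, τ⟩
  · exact ⟨.inl ((c, j, a * x), rr), fun i => rfl⟩
  · refine ⟨.inr (.inl ((r, c, j, a * x, h), σ)), fun i => ?_⟩
    simp only [Wpt]
    generalize σ i = k
    fin_cases k <;> simp [pup, lam, mul_assoc]
  · refine ⟨.inr (.inr ((r, j, a * x), τ)), fun i => ?_⟩
    simp [Wpt, trp, lam, mul_assoc]

lemma prm_lam (c c' : Fin 4) (s : SS D.e q c c') (r : Fin 15) (j : ZMod q) (x a : G) :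
    prm D.e D.gs q c c' s (r, j, a * x) =
      ((prm D.e D.gs q c c' s (r, j, x)).1, (prm D.e D.gs q c c' s (r, j, x)).2.1,
        a * (prm D.e D.gs q c c' s (r, j, x)).2.2) := by
  rcases s with t | ⟨F, k⟩
  · simp [prm, mul_assoc]
  · simp [prm, mul_assoc]

lemma prm_lam_symm (c c' : Fin 4) (s : SS D.e q c c') (r : Fin 15) (j : ZMod q) (x a : G) :
    (prm D.e D.gs q c c' s).symm (r, j, a * x) =
      (((prm D.e D.gs q c c' s).symm (r, j, x)).1, ((prm D.e D.gs q c c' s).symm (r, j, x)).2.1,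
        a * ((prm D.e D.gs q c c' s).symm (r, j, x)).2.2) := by
  rw [Equiv.symm_apply_eq]
  obtain ⟨⟨r', j', x'⟩, h⟩ : ∃ y, (prm D.e D.gs q c c' s).symm (r, j, x) = y := ⟨_, rfl⟩
  rw [h]
  simp only
  rw [prm_lam]
  rw [Equiv.symm_apply_eq] at h
  rw [← h]

lemma lam_mu (a : G) (c : D.CC) (p : HH G q) : lam a (D.mu c p) = D.mu c (lam a p) := by
  obtain ⟨r, c0, j, x⟩ := p
  have e0 : lam a ((r, c0, j, x) : HH G q) = (r, c0, j, a * x) := rfl
  rw [e0]
  rcases c with h | ⟨g, k⟩ | ⟨k, d⟩ | ⟨i, k⟩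
  · simp only [mu, lam, mul_assoc]
  · simp only [mu]
    by_cases h : D.ord (r, j) < D.ord (D.i1 k (r, j))
    · simp only [if_pos h, lam, mul_assoc]
    · simp only [if_neg h, lam, mul_assoc]
  · simp only [mu]
    by_cases h : D.ord2 j < D.ord2 (D.i2 k j)
    · simp only [if_pos h, lam]
    · simp only [if_neg h, lam]
  · simp only [mu]
    by_cases h : c0 < pr i c0
    · simp only [if_pos h, mkp, gp]
      rw [dif_pos h, prm_lam]
      rfl
    · simp only [if_neg h, mkp, gp]
      have h2 : pr i c0 < pr i (pr i c0) := by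
        rw [pr_invol]
        exact lt_of_le_of_ne (not_lt.1 h) (pr_ne i c0)
      rw [dif_pos h2, prm_lam_symm]
      rfl

end Dat

/-- main construction -/
theorem main_n (G : Type) [Group G] [Fintype G] (hn : 2 ≤ Fintype.card G) :
    ∃ (V : Type) (_ : Fintype V) (op : V → V → V) (φ : G →* Equiv.Perm V),
      Fintype.card V ≤ (Fintype.card G) ^ 15 ∧ IsSquag op ∧ Function.Injective φ ∧
      ∀ σ : Equiv.Perm V, σ ∈ φ.range ↔ ∀ x y, σ (op x y) = op (σ x) (σ y) := by
  classical
  obtain ⟨n, hnn⟩ : ∃ n, Fintype.card G = n := ⟨_, rfl⟩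
  have hn2 : 2 ≤ n := by omega
  have : Nontrivial G := Fintype.one_lt_card_iff_nontrivial.1 (by omega)
  obtain ⟨gs, hgs⟩ := exists_ne (1 : G)
  have hq : 2 * Fintype.card G + 40 ≤ 40 * n := by omega
  obtain ⟨D, hN⟩ := exists_dat (40 * n) hq ⟨20 * n, by ring⟩ gs hgs
  have hNZ : NeZero (40 * n) := ⟨by omega⟩
  obtain ⟨J, hJ⟩ : ∃ J, Nat.card (Pp D.e) = J := ⟨_, rfl⟩
  have hJn := Pp_le D.e
  rw [hJ, hnn] at hJn
  have hCC := card_CC D (by omega) hN
  rw [hJ, hnn] at hCC
  have hnsq : 2 * n ≤ n * n := Nat.mul_le_mul_right _ hn2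
  have h60 : 60 * (40 * n) * n = 2400 * (n * n) := by ring
  rw [h60] at hCC
  have hp1 : 7 + 2 * J ≤ 800 * (n * n) := by omega
  obtain ⟨p, hp⟩ : ∃ p, p + 7 + 2 * J = 800 * (n * n) := ⟨800 * (n * n) - 7 - 2 * J, by omega⟩
  have hpodd : Odd p := ⟨400 * (n * n) - J - 4, by omega⟩
  have hpz : NeZero p := ⟨by omega⟩
  have hFinCC : Finite D.CC := by
    apply Nat.finite_of_card_ne_zero
    omega
  let _ : Fintype D.CC := Fintype.ofFinite _
  let _ : Fintype (WW D.e (40 * n)) := Fintype.ofFinite _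
  let _ : Fintype (HH G (40 * n)) := Fintype.ofFinite _
  have hc := dat_counts D (by omega) hN
  have hcC : Fintype.card D.CC = 3 * p := by
    rw [← Nat.card_eq_fintype_card]; omega
  have hcH : Fintype.card (HH G (40 * n)) = 2400 * (n * n) := by
    rw [← Nat.card_eq_fintype_card, card_HH, hnn, h60]
  have hcF : Fintype.card (ZMod p × ZMod 3) = 3 * p := by
    rw [Fintype.card_prod, ZMod.card, ZMod.card]; ring
  let e : D.CC ≃ ZMod p × ZMod 3 := Fintype.equivOfCardEq (hcC.trans hcF.symm)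
  have hT : ∀ x y z, D.T x y z ↔ ∃ w, D.glue.a w = x ∧ D.glue.b w = y ∧ D.glue.t w = z :=
    fun x y z => Iff.rfl
  have huniq : ∀ x y z z' : HH G (40 * n), D.T x y z → D.T x y z' → z = z' := by
    rintro x y z z' ⟨w, h1, h2, h3⟩ ⟨w', h1', h2', h3'⟩
    have : w = w' := Glue.w_inj (D := D.glue) hc (h1.trans h1'.symm) (h2.trans h2'.symm)
    rw [← h3, ← h3', this]
  have hne : ∀ x y z : HH G (40 * n), D.T x y z → x ≠ y := by
    rintro x y z ⟨w, h1, h2, h3⟩
    rw [← h1, ← h2]
    exact Glue.ab_ne (D := D.glue) hc w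
  let op := glueOp D.glue (bop p) e
  let φ : G →* Equiv.Perm ((ZMod p × ZMod 3) ⊕ HH G (40 * n)) :=
    { toFun := fun a => Equiv.sumCongr (Equiv.refl _) (Dat.lamE a)
      map_one' := by
        ext v
        rcases v with f | x
        · rfl
        · change Sum.inr (Dat.lam 1 x) = Sum.inr x
          rw [Dat.lam_one]
      map_mul' := fun a b => by
        ext v
        rcases v with f | x
        · rfl
        · change Sum.inr (Dat.lam (a * b) x) = Sum.inr (Dat.lam a (Dat.lam b x))
          rw [Dat.lam_mul] }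
  have hφ : ∀ a v, φ a v = Sum.map id (Dat.lam a) v := by
    intro a v
    rcases v with f | x <;> rfl
  refine ⟨(ZMod p × ZMod 3) ⊕ HH G (40 * n), inferInstance, op, φ, ?_, ?_, ?_, ?_⟩
  · rw [Fintype.card_sum, hcF, hcH, hnn]
    have h1 : n ^ 15 = n ^ 13 * (n * n) := by ring
    have h2 : 2 ^ 13 ≤ n ^ 13 := Nat.pow_le_pow_left hn2 13
    have h3 : 2 ^ 13 * (n * n) ≤ n ^ 13 * (n * n) := Nat.mul_le_mul_right _ h2
    rw [h1]
    norm_num at h3
    omega
  · exact glue_squag D.glue hc (bop p) e (bop_squag hpodd)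
  · intro a b hab
    have : φ a (.inr (0, 0, 0, 1)) = φ b (.inr (0, 0, 0, 1)) := by rw [hab]
    rw [hφ, hφ] at this
    simp only [Sum.map_inr, Dat.lam] at this
    have h2 := Sum.inr_injective this
    simpa using h2
  · intro σ
    constructor
    · rintro ⟨a, rfl⟩ x y
      rw [hφ, hφ, hφ]
      apply glue_aut D.glue hc
      · intro w
        obtain ⟨w', hw'⟩ := D.lam_W a w
        exact ⟨w', hw' 0, hw' 1, hw' 2⟩
      · intro c x
        exact D.lam_mu a c x
    · intro hσ
      obtain ⟨αF, αH, h1, h2, h3, h4⟩ := aut_split D.glue hc (bop p) e (21 + 6 * J)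
        (by rw [hcC, hcH]; omega)
        (by
          intro S hS hSne
          rw [hcF]
          exact bose_sub hpodd (21 + 6 * J) (by omega) (by omega) S hS hSne)
        σ hσ
      obtain ⟨a, ha⟩ := Dat.rigid_T hq huniq hne αH h3 h4
      have ha' : ∀ x, αH x = Dat.lam a x := by
        rintro ⟨r, c, j, x⟩
        exact ha r c j x
      refine ⟨a, ?_⟩
      ext v
      rw [hφ]
      rcases v with f | x
      · rw [h1]
        simp only [Sum.map_inl, id]
        congr 1
        have h5 : σ (glueOp D.glue (bop p) e (.inl f) (.inr (0, 0, 0, 1))) =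
          glueOp D.glue (bop p) e (σ (.inl f)) (σ (.inr (0, 0, 0, 1))) :=
          hσ (.inl f) (.inr (0, 0, 0, 1))
        rw [glueOp_fh, h2, h1, h2, glueOp_fh, ha', ha'] at h5
        have h6 := Sum.inr_injective h5
        have h7 : Dat.lam a (D.glue.μ (e.symm f) (0, 0, 0, 1)) =
            D.glue.μ (e.symm f) (Dat.lam a (0, 0, 0, 1)) := D.lam_mu a _ _
        rw [h7] at h6
        exact e.symm.injective (Glue.mu_inj hc h6)
      · rw [h2, ha']
        rfl

end Pool.Agent.Lib_helper60.Sts
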