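import Pool.Agent.Lib_helper60.Sts.Basic

set_option autoImplicit false

namespace Pool.Agent.Lib_helper60.Sts

/-- Multiplication table of a rigid Steiner triple system on 15 points. -/
def rtab : Fin 15 → Fin 15 → Fin 15 :=
  ![![0, 12, 9, 14, 7, 8, 13, 4, 5, 2, 11, 10, 1, 6, 3],
    ![12, 1, 6, 7, 8, 13, 2, 3, 4, 11, 14, 9, 0, 5, 10],
    ![9, 6, 2, 8, 14, 7, 1, 5, 3, 0, 12, 13, 10, 11, 4],
    ![14, 7, 8, 3, 9, 11, 10, 1, 2, 4, 6, 5, 13, 12, 0],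
    ![7, 8, 14, 9, 4, 12, 11, 0, 1, 3, 13, 6, 5, 10, 2],
    ![8, 13, 7, 11, 12, 5, 14, 2, 0, 10, 9, 3, 4, 1, 6],
    ![13, 2, 1, 10, 11, 14, 6, 12, 9, 8, 3, 4, 7, 0, 5],
    ![4, 3, 5, 1, 0, 2, 12, 7, 10, 13, 8, 14, 6, 9, 11],
    ![5, 4, 3, 2, 1, 0, 9, 10, 8, 6, 7, 12, 11, 14, 13],
    ![2, 11, 0, 4, 3, 10, 8, 13, 6, 9, 5, 1, 14, 7, 12],
    ![11, 14, 12, 6, 13, 9, 3, 8, 7, 5, 10, 0, 2, 4, 1],
    ![10, 9, 13, 5, 6, 3, 4, 14, 12, 1, 0, 11, 8, 2, 7],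
    ![1, 0, 10, 13, 5, 4, 7, 6, 11, 14, 2, 8, 12, 3, 9],
    ![6, 5, 11, 12, 10, 1, 0, 9, 14, 7, 4, 2, 3, 13, 8],
    ![3, 10, 4, 0, 2, 6, 5, 11, 13, 12, 1, 7, 9, 8, 14]]

theorem rtab_squag : IsSquag rtab := by
  refine ⟨?_, ?_, ?_⟩
  · decide +kernel
  · decide +kernel
  · decide +kernel

/-- three relations determine the generating triple `(0, 1, 2)` -/
theorem rigid_aux : ∀ a b c : Fin 15, a ≠ b →
    rtab (rtab c b) a = rtab (rtab (rtab b a) c) (rtab (rtab (rtab c a) b) (rtab c b)) →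
    rtab (rtab b a) c = rtab (rtab (rtab c b) (rtab c a)) (rtab (rtab c b) (rtab b a)) →
    rtab (rtab c a) (rtab b a) = rtab (rtab (rtab (rtab b a) c) (rtab c b)) a →
    a = 0 ∧ b = 1 ∧ c = 2 := by
  decide +kernel

theorem rigid15 (σ : Fin 15 → Fin 15) (hinj : Function.Injective σ)
    (hσ : ∀ x y, σ (rtab x y) = rtab (σ x) (σ y)) : ∀ x, σ x = x := by
  have e12 : σ 12 = rtab (σ 1) (σ 0) := hσ 1 0
  have e9 : σ 9 = rtab (σ 2) (σ 0) := hσ 2 0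
  have e6 : σ 6 = rtab (σ 2) (σ 1) := hσ 2 1
  have e10 : σ 10 = rtab (σ 12) (σ 2) := hσ 12 2
  have e11 : σ 11 = rtab (σ 9) (σ 1) := hσ 9 1
  have e14 : σ 14 = rtab (σ 9) (σ 12) := hσ 9 12
  have e13 : σ 13 = rtab (σ 6) (σ 0) := hσ 6 0
  have e7 : σ 7 = rtab (σ 6) (σ 12) := hσ 6 12
  have e8 : σ 8 = rtab (σ 6) (σ 9) := hσ 6 9
  have e5 : σ 5 = rtab (σ 10) (σ 9) := hσ 10 9
  have e3 : σ 3 = rtab (σ 10) (σ 6) := hσ 10 6
  have e4 : σ 4 = rtab (σ 11) (σ 6) := hσ 11 6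
  have r1 : σ 13 = rtab (σ 10) (σ 4) := hσ 10 4
  have r2 : σ 10 = rtab (σ 8) (σ 7) := hσ 8 7
  have r3 : σ 14 = rtab (σ 3) (σ 0) := hσ 3 0
  have h01 : σ 0 ≠ σ 1 := fun h => absurd (hinj h) (by decide)
  rw [e13, e10, e4, e11, e12, e9, e6] at r1
  rw [e10, e8, e7, e12, e9, e6] at r2
  rw [e14, e3, e10, e12, e9, e6] at r3
  obtain ⟨h0, h1, h2⟩ := rigid_aux (σ 0) (σ 1) (σ 2) h01 r1 r2 r3
  rw [h0, h1] at e12
  rw [h0, h2] at e9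
  rw [h1, h2] at e6
  have f12 : σ 12 = 12 := by rw [e12]; decide
  have f9 : σ 9 = 9 := by rw [e9]; decide
  have f6 : σ 6 = 6 := by rw [e6]; decide
  have f10 : σ 10 = 10 := by rw [e10, f12, h2]; decide
  have f11 : σ 11 = 11 := by rw [e11, f9, h1]; decide
  have f14 : σ 14 = 14 := by rw [e14, f9, f12]; decide
  have f13 : σ 13 = 13 := by rw [e13, f6, h0]; decide
  have f7 : σ 7 = 7 := by rw [e7, f6, f12]; decide
  have f8 : σ 8 = 8 := by rw [e8, f6, f9]; decide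
  have f5 : σ 5 = 5 := by rw [e5, f10, f9]; decide
  have f3 : σ 3 = 3 := by rw [e3, f10, f6]; decide
  have f4 : σ 4 = 4 := by rw [e4, f11, f6]; decide
  intro x
  fin_cases x
  · exact h0
  · exact h1
  · exact h2
  · exact f3
  · exact f4
  · exact f5
  · exact f6
  · exact f7
  · exact f8
  · exact f9
  · exact f10
  · exact f11
  · exact f12
  · exact f13
  · exact f14

end Pool.Agent.Lib_helper60.Sts
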