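import Pool.Agent.Lib_helper60.Sts.Assembly
import Pool.Agent.Lib_helper60.Sts.Bose
import Pool.Agent.Lib_helper60.Sts.Rigid15

set_option autoImplicit false

namespace Pool.Agent.Lib_helper60.Sts

/-- the classical one-factorisation of the complete graph on `ZMod M ∪ {∞}`, `M` odd -/
def of0 (M : ℕ) (k : ZMod M) : Option (ZMod M) → Option (ZMod M)
  | none => some (k * hf M)
  | some a => if 2 * a = k then none else some (k - a)

section
variable {M : ℕ} (hM : Odd M)
include hM

lemma of0_invol (k : ZMod M) (x : Option (ZMod M)) : of0 M k (of0 M k x) = x := by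
  have h2 := two_hf M hM
  rcases x with _ | a
  · have : 2 * (k * hf M) = k := by
      calc 2 * (k * hf M) = k * (2 * hf M) := by ring
        _ = k := by rw [h2, mul_one]
    simp [of0, this]
  · by_cases h : 2 * a = k
    · have : k * hf M = a := by
        rw [← h]
        calc 2 * a * hf M = a * (2 * hf M) := by ring
          _ = a := by rw [h2, mul_one]
      simp [of0, h, this]
    · have h3 : 2 * (k - a) ≠ k := by
        intro hh
        apply h
        calc 2 * a = 2 * k - 2 * (k - a) := by ring
          _ = 2 * k - k := by rw [hh]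
          _ = k := by ring
      simp [of0, h, h3]

lemma of0_ne (k : ZMod M) (x : Option (ZMod M)) : of0 M k x ≠ x := by
  rcases x with _ | a
  · simp [of0]
  · by_cases h : 2 * a = k
    · simp [of0, h]
    · simp only [of0, h, if_false, ne_eq, Option.some.injEq]
      intro hh
      apply h
      calc 2 * a = (k - a) + a := by rw [hh]; ring
        _ = k := by ring

lemma of0_cover (x y : Option (ZMod M)) (hxy : x ≠ y) : ∃ k, of0 M k x = y := by
  have h2 := two_hf M hM
  rcases x with _ | a <;> rcases y with _ | b
  · exact absurd rfl hxy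
  · refine ⟨2 * b, ?_⟩
    simp only [of0, Option.some.injEq]
    calc 2 * b * hf M = b * (2 * hf M) := by ring
      _ = b := by rw [h2, mul_one]
  · exact ⟨2 * a, by simp [of0]⟩
  · refine ⟨a + b, ?_⟩
    have hab : a ≠ b := fun h => hxy (by rw [h])
    have : ¬ 2 * a = a + b := by
      intro hh
      apply hab
      calc a = 2 * a - a := by ring
        _ = a + b - a := by rw [hh]
        _ = b := by ring
    simp [of0, this]

end

/-- One-factorisation of any type with an even number `m` of elements. -/
theorem exists_onefact (B : Type) [Fintype B] (m : ℕ) (hm : Fintype.card B = m) (he : Even m)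
    (hpos : 0 < m) :
    ∃ ι : ZMod (m - 1) → B → B, (∀ k x, ι k (ι k x) = x) ∧ (∀ k x, ι k x ≠ x) ∧
      ∀ x y, x ≠ y → ∃ k, ι k x = y := by
  classical
  have hodd : Odd (m - 1) := by
    obtain ⟨k, hk⟩ := he
    exact ⟨k - 1, by omega⟩
  have : NeZero (m - 1) := ⟨by obtain ⟨k, hk⟩ := hodd; omega⟩
  have hcard : Fintype.card B = Fintype.card (Option (ZMod (m - 1))) := by
    rw [Fintype.card_option, ZMod.card, hm]; omega
  let E : B ≃ Option (ZMod (m - 1)) := Fintype.equivOfCardEq hcard
  refine ⟨fun k x => E.symm (of0 (m - 1) k (E x)), ?_, ?_, ?_⟩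
  · intro k x
    simp [of0_invol hodd]
  · intro k x h
    have h1 : of0 (m - 1) k (E x) = E x := by
      have := congrArg E h
      simpa using this
    exact of0_ne hodd k _ h1
  · intro x y hxy
    obtain ⟨k, hk⟩ := of0_cover hodd (E x) (E y) (fun h => hxy (E.injective h))
    exact ⟨k, by simp [hk]⟩

end Pool.Agent.Lib_helper60.Sts
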