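import Pool.Agent.Lib_helper60.Sts.Count2

set_option autoImplicit false
set_option linter.unusedSectionVars false

namespace Pool.Agent.Lib_helper60.Sts

namespace Dat

variable {G : Type} [Group G] [Fintype G] {q : ℕ} (D : Dat G q)

/-- ordered collinear triples -/
def T (x y z : HH G q) : Prop :=
  ∃ w : WW D.e q, Wpt D.e D.gs q w 0 = x ∧ Wpt D.e D.gs q w 1 = y ∧ Wpt D.e D.gs q w 2 = z

/-- points of a layer -/
abbrev LL (G : Type) (q : ℕ) : Type := Fin 4 × ZMod q × G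

/-- pure triple inside a layer -/
def pu (c : Fin 4) (j : ZMod q) (x : G) (h : G) : Fin 3 → LL G q :=
  ![(c, j, x), (c, j, x * h), (Fin.rev c, j + sft D.e q h, x)]

/-- transversal triple inside a layer -/
def tr (r : Fin 15) (F : Fin 4) (j : ZMod q) (x : G) (c : Fin 4) : LL G q :=
  (c, j + fc q F c, x * lb D.e D.gs q r F c j)

/-- layer triples -/
def PT (r : Fin 15) (P P' P'' : LL G q) : Prop :=
  (∃ (c : Fin 4) (j : ZMod q) (x : G) (h : Pp D.e) (σ : Equiv.Perm (Fin 3)),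
    D.pu c j x h.1 (σ 0) = P ∧ D.pu c j x h.1 (σ 1) = P' ∧ D.pu c j x h.1 (σ 2) = P'') ∨
  (∃ (j : ZMod q) (x : G) (τ : Equiv.Perm (Fin 4)),
    D.tr r (τ 3) j x (τ 0) = P ∧ D.tr r (τ 3) j x (τ 1) = P' ∧ D.tr r (τ 3) j x (τ 2) = P'')

lemma pup_eq (r : Fin 15) (c : Fin 4) (j : ZMod q) (x h : G) (i : Fin 3) :
    pup D.e q r c j x h i = (r, D.pu c j x h i) := by
  fin_cases i <;> rfl

lemma trp_eq (r : Fin 15) (F : Fin 4) (j : ZMod q) (x : G) (c : Fin 4) :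
    trp D.e D.gs q r F j x c = (r, D.tr r F j x c) := rfl

lemma T_iff (x y z : HH G q) : D.T x y z ↔
    ((x.2 = y.2 ∧ x.2 = z.2 ∧ x.1 ≠ y.1 ∧ z.1 = rtab x.1 y.1) ∨
     (x.1 = y.1 ∧ x.1 = z.1 ∧ D.PT x.1 x.2 y.2 z.2)) := by
  constructor
  · rintro ⟨⟨P, rr⟩ | ⟨⟨r, c, j, g, h⟩, σ⟩ | ⟨⟨r, j, g⟩, τ⟩, h0, h1, h2⟩
    · left
      simp only [Wpt] at h0 h1 h2
      subst h0 h1 h2
      exact ⟨rfl, rfl, rr.2, rfl⟩
    · right
      simp only [Wpt, pup_eq] at h0 h1 h2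
      subst h0 h1 h2
      exact ⟨rfl, rfl, .inl ⟨c, j, g, h, σ, rfl, rfl, rfl⟩⟩
    · right
      simp only [Wpt, trp_eq] at h0 h1 h2
      subst h0 h1 h2
      exact ⟨rfl, rfl, .inr ⟨j, g, τ, rfl, rfl, rfl⟩⟩
  · obtain ⟨r, P⟩ := x
    obtain ⟨r', P'⟩ := y
    obtain ⟨r'', P''⟩ := z
    rintro (⟨h1, h2, h3, h4⟩ | ⟨h1, h2, ⟨c, j, g, h, σ, g0, g1, g2⟩ | ⟨j, g, τ, g0, g1, g2⟩⟩)
    · simp only at h1 h2 h3 h4
      subst h1 h2 h4
      exact ⟨.inl (P, ⟨(r, r'), h3⟩), rfl, rfl, rfl⟩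
    · simp only at h1 h2 g0 g1 g2
      subst h1 h2 g0 g1 g2
      exact ⟨.inr (.inl ((r, c, j, g, h), σ)), by simp [Wpt, pup_eq], by simp [Wpt, pup_eq],
        by simp [Wpt, pup_eq]⟩
    · simp only at h1 h2 g0 g1 g2
      subst h1 h2 g0 g1 g2
      exact ⟨.inr (.inr ((r, j, g), τ)), rfl, rfl, rfl⟩

lemma T_layer (r : Fin 15) (P P' P'' : LL G q) :
    D.T (r, P) (r, P') (r, P'') ↔ D.PT r P P' P'' := by
  rw [T_iff]
  constructor
  · rintro (⟨_, _, h, _⟩ | ⟨_, _, h⟩)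
    · exact absurd rfl h
    · exact h
  · intro h
    exact .inr ⟨rfl, rfl, h⟩

lemma T_swap {x y z : HH G q} (h : D.T x y z) : D.T y x z := by
  obtain ⟨w, rfl, rfl, rfl⟩ := h
  obtain ⟨w', h1, h2, h3⟩ := W_swap D.e D.gs q w
  exact ⟨w', h1, h2, h3⟩

lemma T_rot {x y z : HH G q} (h : D.T x y z) : D.T x z y := by
  obtain ⟨w, rfl, rfl, rfl⟩ := h
  obtain ⟨w', h1, h2, h3⟩ := W_rot D.e D.gs q w
  exact ⟨w', h1, h2, h3⟩

lemma PT_same {r : Fin 15} {P P' P'' : LL G q} (h : D.PT r P P' P'') (hP : P.1 = P'.1) :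
    P.2.1 = P'.2.1 ∧ P''.1 = Fin.rev P.1 ∧ ∃ k : Pp D.e, P''.2.1 = P.2.1 + sft D.e q k.1 ∧
      (P'.2.2 = P.2.2 * k.1 ∨ P'.2.2 = P.2.2 * k.1⁻¹) := by
  have hrev : ∀ c : Fin 4, Fin.rev c ≠ c := by decide
  rcases h with ⟨c, j, x, k, σ, h0, h1, h2⟩ | ⟨j, x, τ, h0, h1, h2⟩
  · have hσ : ∀ σ : Equiv.Perm (Fin 3), (σ 0 = 0 ∧ σ 1 = 1 ∧ σ 2 = 2) ∨
        (σ 0 = 1 ∧ σ 1 = 0 ∧ σ 2 = 2) ∨ (σ 0 ≠ 2 ∧ σ 1 = 2) ∨ (σ 0 = 2 ∧ σ 1 ≠ 2) := by decide
    have hpu : ∀ i : Fin 3, i ≠ 2 → (D.pu c j x k.1 i).1 = c := by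
      intro i hi
      fin_cases i
      · rfl
      · rfl
      · exact absurd rfl hi
    have hpu2 : (D.pu c j x k.1 2).1 = Fin.rev c := rfl
    rcases hσ σ with ⟨s0, s1, s2⟩ | ⟨s0, s1, s2⟩ | ⟨s0, s1⟩ | ⟨s0, s1⟩
    · rw [s0] at h0; rw [s1] at h1; rw [s2] at h2
      subst h0 h1 h2
      exact ⟨rfl, rfl, k, rfl, .inl rfl⟩
    · rw [s0] at h0; rw [s1] at h1; rw [s2] at h2
      subst h0 h1 h2
      exact ⟨rfl, rfl, k, rfl, .inr (by simp [pu])⟩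
    · rw [← h0, ← h1, s1, hpu _ s0, hpu2] at hP
      exact absurd hP.symm (hrev c)
    · rw [← h0, ← h1, s0, hpu _ s1, hpu2] at hP
      exact absurd hP (hrev c)
  · exfalso
    rw [← h0, ← h1] at hP
    have : τ 0 = τ 1 := hP
    exact absurd (τ.injective this) (by decide)

section rig
variable {D} (hq : 2 * Fintype.card G + 40 ≤ q)
  (huniq : ∀ x y z z' : HH G q, D.T x y z → D.T x y z' → z = z')
  (hne : ∀ x y z : HH G q, D.T x y z → x ≠ y)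

include hne in
lemma T_diff {x y z : HH G q} (h : D.T x y z) (h2 : x.2 ≠ y.2) :
    x.1 = y.1 ∧ x.1 = z.1 ∧ D.PT x.1 x.2 y.2 z.2 := by
  rcases (D.T_iff x y z).1 h with ⟨h1, _⟩ | h1
  · exact absurd h1 h2
  · exact h1

include hne in
lemma T_eq {x y z : HH G q} (h : D.T x y z) (h2 : x.2 = y.2) :
    x.2 = z.2 ∧ z.1 = rtab x.1 y.1 := by
  rcases (D.T_iff x y z).1 h with ⟨_, h1, _, h3⟩ | ⟨h1, _⟩
  · exact ⟨h1, h3⟩
  · exact absurd (Prod.ext h1 h2) (hne _ _ _ h)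

include hq hne in
/-- a copy of the rigid 15-point system is a cluster -/
lemma cluster (k : Fin 15 → HH G q) (kinj : Function.Injective k)
    (hk : ∀ r r', r ≠ r' → D.T (k r) (k r') (k (rtab r r'))) (a b : Fin 15) :
    (k a).2 = (k b).2 := by
  classical
  by_contra hab
  have hdist : ∀ a b, a ≠ b → (k a).2 ≠ (k b).2 := by
    intro u v huv he
    obtain ⟨s, hs⟩ : ∃ s, (k s).2 ≠ (k u).2 := by
      by_contra hcon
      push Not at hcon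
      exact hab ((hcon a).trans (hcon b).symm)
    have hsu : u ≠ s := fun h => hs (by rw [h])
    have hsv : v ≠ s := fun h => hs (by rw [he, h])
    have h1 := (T_diff hne (hk u s hsu) hs.symm).1
    have h2 := (T_diff hne (hk v s hsv) (by rw [← he]; exact hs.symm)).1
    exact huv (kinj (Prod.ext (h1.trans h2.symm) he))
  have hlay : ∀ u, (k u).1 = (k 0).1 := by
    intro u
    by_cases hu : u = 0
    · rw [hu]
    · exact (T_diff hne (hk u 0 hu) (hdist u 0 hu)).1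
  have hPT : ∀ u v, u ≠ v → D.PT (k 0).1 (k u).2 (k v).2 (k (rtab u v)).2 := by
    intro u v huv
    have := (T_diff hne (hk u v huv) (hdist u v huv)).2.2
    rwa [hlay u] at this
  obtain ⟨c, hc⟩ := Fintype.exists_lt_card_fiber_of_mul_lt_card (n := 3)
    (fun u : Fin 15 => (k u).2.1) (by simp)
  set S := Finset.univ.filter (fun u : Fin 15 => (k u).2.1 = c) with hS
  have hmem : ∀ u, u ∈ S ↔ (k u).2.1 = c := by intro u; simp [hS]
  obtain ⟨a0, ha0⟩ : S.Nonempty := by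
    rw [← Finset.card_pos]; omega
  have hcard : 3 ≤ (S.erase a0).card := by
    rw [Finset.card_erase_of_mem ha0]; omega
  obtain ⟨b0, hb0⟩ : (S.erase a0).Nonempty := by
    rw [← Finset.card_pos]; omega
  have hpart : ∀ u v, u ≠ v → (k u).2.1 = (k v).2.1 → (k u).2.2.1 = (k v).2.2.1 := by
    intro u v huv he
    exact (D.PT_same (hPT u v huv) he).1
  have key : ∀ b ∈ S.erase a0, ∃ h : Pp D.e,
      (k (rtab a0 b)).2.1 = Fin.rev c ∧
      (k (rtab a0 b)).2.2.1 = (k a0).2.2.1 + sft D.e q h.1 ∧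
      ((k b).2.2.2 = (k a0).2.2.2 * h.1 ∨ (k b).2.2.2 = (k a0).2.2.2 * h.1⁻¹) := by
    intro b hb
    have hb1 := Finset.ne_of_mem_erase hb
    have hb2 := (hmem b).1 (Finset.mem_of_mem_erase hb)
    have ha2 := (hmem a0).1 ha0
    obtain ⟨h1, h2, h, h3, h4⟩ := D.PT_same (hPT a0 b hb1.symm) (ha2.trans hb2.symm)
    exact ⟨h, by rw [h2, ha2], h3, h4⟩
  obtain ⟨h, hh1, hh2, hh3⟩ := key b0 hb0
  have key2 : ∀ b ∈ S.erase a0,
      (k b).2.2.2 = (k a0).2.2.2 * h.1 ∨ (k b).2.2.2 = (k a0).2.2.2 * h.1⁻¹ := by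
    intro b hb
    by_cases hbb : b = b0
    · rw [hbb]; exact hh3
    obtain ⟨h', g1, g2, g3⟩ := key b hb
    have hne2 : rtab a0 b ≠ rtab a0 b0 := fun he => hbb (rtab_squag.inj a0 he)
    have h5 := hpart _ _ hne2 (g1.trans hh1.symm)
    rw [g2, hh2] at h5
    have h6 := sft_inj D.e hq _ _ (add_left_cancel h5)
    rw [h6] at g3
    exact g3
  have hsub : (S.erase a0).card ≤ ({(k a0).2.2.2 * h.1, (k a0).2.2.2 * h.1⁻¹} : Finset G).card := by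
    apply Finset.card_le_card_of_injOn (fun b => (k b).2.2.2)
    · intro b hb
      have := key2 b hb
      simpa using this
    · intro u hu v hv huv
      by_contra hne3
      have hu2 := (hmem u).1 (Finset.mem_of_mem_erase hu)
      have hv2 := (hmem v).1 (Finset.mem_of_mem_erase hv)
      have h7 := hpart u v hne3 (hu2.trans hv2.symm)
      exact hdist u v hne3 (Prod.ext (hu2.trans hv2.symm) (Prod.ext h7 huv))
  have h8 : ({(k a0).2.2.2 * h.1, (k a0).2.2.2 * h.1⁻¹} : Finset G).card ≤ 2 := Finset.card_le_two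
  omega

end rig

section layer
variable {D}

/-- base triple -/
def bt (F : Fin 4) (j : ZMod q) (x : G) (c : Fin 4) : LL G q := (c, j + fc q F c, x)

lemma tr_of_lab {r : Fin 15} {F : Fin 4} {j : ZMod q} (h : lab D.e D.gs q r F j = 1) (x : G)
    (c : Fin 4) : D.tr r F j x c = bt F j x c := by
  simp only [tr, bt, lb, h]
  simp

lemma lab_zero (F : Fin 4) (j : ZMod q) : lab D.e D.gs q 0 F j = 1 := by
  simp [lab]

lemma PT_zero_bt (j : ZMod q) (x : G) (τ : Equiv.Perm (Fin 4)) :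
    D.PT 0 (bt (τ 3) j x (τ 0)) (bt (τ 3) j x (τ 1)) (bt (τ 3) j x (τ 2)) := by
  right
  exact ⟨j, x, τ, tr_of_lab (lab_zero _ _) _ _, tr_of_lab (lab_zero _ _) _ _,
    tr_of_lab (lab_zero _ _) _ _⟩

lemma PT_zero_not {r : Fin 15} {P P' P'' : LL G q} (h0 : D.PT 0 P P' P'')
    (hr : ¬ D.PT r P P' P'') : ∃ (j : ZMod q) (x : G) (τ : Equiv.Perm (Fin 4)),
      lab D.e D.gs q r (τ 3) j ≠ 1 ∧ P = bt (τ 3) j x (τ 0) ∧ P' = bt (τ 3) j x (τ 1) ∧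
      P'' = bt (τ 3) j x (τ 2) := by
  rcases h0 with h0 | ⟨j, x, τ, h0, h1, h2⟩
  · exact absurd (.inl h0) hr
  · rw [tr_of_lab (lab_zero _ _)] at h0 h1 h2
    refine ⟨j, x, τ, ?_, h0.symm, h1.symm, h2.symm⟩
    intro hl
    apply hr
    right
    refine ⟨j, x, τ, ?_, ?_, ?_⟩ <;> rw [tr_of_lab hl]
    · exact h0
    · exact h1
    · exact h2

variable (huniq : ∀ x y z z' : HH G q, D.T x y z → D.T x y z' → z = z')
include huniq

lemma PT_uniq {r : Fin 15} {P P' Q Q' : LL G q} (h : D.PT r P P' Q) (h' : D.PT r P P' Q') :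
    Q = Q' := by
  rw [← T_layer] at h h'
  exact (Prod.mk.inj (huniq _ _ _ _ h h')).2

lemma PT_uniq1 {r : Fin 15} {P P' Q Q' : LL G q} (h : D.PT r P Q P') (h' : D.PT r P Q' P') :
    Q = Q' := by
  rw [← T_layer] at h h'
  exact (Prod.mk.inj (huniq _ _ _ _ (D.T_rot h) (D.T_rot h'))).2

lemma PT_uniq0 {r : Fin 15} {P P' Q Q' : LL G q} (h : D.PT r Q P P') (h' : D.PT r Q' P P') :
    Q = Q' := by
  rw [← T_layer] at h h'
  exact (Prod.mk.inj (huniq _ _ _ _ (D.T_rot (D.T_swap h)) (D.T_rot (D.T_swap h')))).2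

lemma PT_bt_not {r : Fin 15} (j : ZMod q) (x : G) (τ : Equiv.Perm (Fin 4))
    (hl : lab D.e D.gs q r (τ 3) j ≠ 1) :
    ¬ D.PT r (bt (τ 3) j x (τ 0)) (bt (τ 3) j x (τ 1)) (bt (τ 3) j x (τ 2)) := by
  intro h
  have h' : D.PT r (D.tr r (τ 3) j x (τ 0)) (D.tr r (τ 3) j x (τ 1)) (D.tr r (τ 3) j x (τ 2)) :=
    .inr ⟨j, x, τ, rfl, rfl, rfl⟩
  have hτ : ∀ τ : Equiv.Perm (Fin 4), (τ 0 = dpart (τ 3) ∧ τ 1 ≠ dpart (τ 3) ∧ τ 2 ≠ dpart (τ 3)) ∨
      (τ 0 ≠ dpart (τ 3) ∧ τ 1 = dpart (τ 3) ∧ τ 2 ≠ dpart (τ 3)) ∨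
      (τ 0 ≠ dpart (τ 3) ∧ τ 1 ≠ dpart (τ 3) ∧ τ 2 = dpart (τ 3)) := by
    unfold dpart
    decide
  have e1 : ∀ c, c ≠ dpart (τ 3) → D.tr r (τ 3) j x c = bt (τ 3) j x c := by
    intro c hc
    simp [tr, bt, lb, hc]
  have e2 : ∀ c, c = dpart (τ 3) → D.tr r (τ 3) j x c ≠ bt (τ 3) j x c := by
    intro c hc he
    simp only [tr, bt, lb, if_pos hc, Prod.mk.injEq, true_and, mul_eq_left] at he
    exact hl he
  rcases hτ τ with ⟨a0, a1, a2⟩ | ⟨a0, a1, a2⟩ | ⟨a0, a1, a2⟩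
  · rw [e1 _ a1, e1 _ a2] at h'
    exact e2 _ a0 (PT_uniq0 huniq h' h)
  · rw [e1 _ a0, e1 _ a2] at h'
    exact e2 _ a1 (PT_uniq1 huniq h' h)
  · rw [e1 _ a0, e1 _ a1] at h'
    exact e2 _ a2 (PT_uniq huniq h' h)

variable (b : LL G q → LL G q)
  (hb : ∀ r P P' P'', D.PT r P P' P'' ↔ D.PT r (b P) (b P') (b P''))
include hb

lemma b_base (r : Fin 15) (j : ZMod q) (x : G) (τ : Equiv.Perm (Fin 4))
    (hl : lab D.e D.gs q r (τ 3) j ≠ 1) : ∃ (j' : ZMod q) (x' : G) (τ' : Equiv.Perm (Fin 4)),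
      lab D.e D.gs q r (τ' 3) j' ≠ 1 ∧ b (bt (τ 3) j x (τ 0)) = bt (τ' 3) j' x' (τ' 0) ∧
      b (bt (τ 3) j x (τ 1)) = bt (τ' 3) j' x' (τ' 1) ∧
      b (bt (τ 3) j x (τ 2)) = bt (τ' 3) j' x' (τ' 2) := by
  apply PT_zero_not
  · exact (hb _ _ _ _).1 (PT_zero_bt j x τ)
  · intro h
    exact PT_bt_not huniq j x τ hl ((hb _ _ _ _).2 h)

/-- the layer detecting a family -/
def lay (F : Fin 4) : Fin 15 := ![1, 2, 3, 4] F

omit huniq hb in
lemma lab_lay (F : Fin 4) (j : ZMod q) : lab D.e D.gs q (lay F) F j = D.gs := by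
  fin_cases F <;> simp [lab, lay]

omit huniq hb in
lemma lab_lay_ne (F F' : Fin 4) (j : ZMod q) (h : lab D.e D.gs q (lay F) F' j ≠ 1) : F' = F := by
  by_contra hne
  apply h
  revert hne
  fin_cases F <;> fin_cases F' <;> simp [lab, lay]

omit huniq hb in
lemma perm4_ex2 (c F : Fin 4) (h1 : F ≠ c) :
    ∃ τ : Equiv.Perm (Fin 4), τ 0 = c ∧ τ 3 = F := by
  revert c F; decide

lemma b_part (P : LL G q) : (b P).1 = P.1 := by
  obtain ⟨c, j, x⟩ := P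
  have key : ∀ F, F ≠ c → (b (c, j, x)).1 ≠ F := by
    intro F hF
    obtain ⟨τ, h0, h3⟩ := perm4_ex2 c F hF
    obtain ⟨j', x', τ', hl, g0, _, _⟩ := b_base huniq b hb (lay F) (j - fc q F c) x τ
      (by rw [h3, lab_lay]; exact D.hgs)
    have hF' : τ' 3 = F := lab_lay_ne _ _ _ hl
    rw [h0, h3] at g0
    have e0 : bt F (j - fc q F c) x c = (c, j, x) := by simp [bt]
    rw [e0] at g0
    rw [g0, ← hF']
    intro he
    have : τ' 0 = τ' 3 := he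
    exact absurd (τ'.injective this) (by decide)
  by_contra hne
  exact key _ hne rfl

lemma b_step (F c c' : Fin 4) (h1 : c ≠ c') (h2 : F ≠ c) (h3 : F ≠ c') (j j1 : ZMod q) (x x1 : G)
    (h : b (c, j, x) = (c, j1, x1)) :
    b (c', j - fc q F c + fc q F c', x) = (c', j1 - fc q F c + fc q F c', x1) := by
  obtain ⟨τ, t0, t1, t3⟩ := perm4_ex c c' F h1 h2 h3
  obtain ⟨j', x', τ', hl, g0, g1, _⟩ := b_base huniq b hb (lay F) (j - fc q F c) x τ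
    (by rw [t3, lab_lay]; exact D.hgs)
  have hF' : τ' 3 = F := lab_lay_ne _ _ _ hl
  rw [t0, t3] at g0
  rw [t1, t3] at g1
  have e0 : bt F (j - fc q F c) x c = (c, j, x) := by simp [bt]
  rw [e0, h, hF'] at g0
  rw [hF'] at g1
  simp only [bt, Prod.mk.injEq] at g0
  obtain ⟨g01, g02, g03⟩ := g0
  have hp := b_part huniq b hb (bt F (j - fc q F c) x c')
  rw [g1] at hp
  have hp' : τ' 1 = c' := hp
  rw [hp'] at g1
  have e1 : bt F (j - fc q F c) x c' = (c', j - fc q F c + fc q F c', x) := rfl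
  rw [e1] at g1
  rw [g1, bt, g03, g02, ← g01]
  simp

end layer

end Dat

end Pool.Agent.Lib_helper60.Sts
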