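import Pool.Agent.Lib_helper60.Sts.Rigid

set_option autoImplicit false
set_option linter.unusedSectionVars false

namespace Pool.Agent.Lib_helper60.Sts

namespace Dat

variable {G : Type} [Group G] [Fintype G] {q : ℕ} {D : Dat G q}
  (hq : 2 * Fintype.card G + 40 ≤ q)
  (huniq : ∀ x y z z' : HH G q, D.T x y z → D.T x y z' → z = z')

section
variable (b : LL G q → LL G q)
  (hb : ∀ r P P' P'', D.PT r P P' P'' ↔ D.PT r (b P) (b P') (b P''))

lemma fc_zero (F : Fin 4) : fc q F 0 = 0 := by simp [fc]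

lemma fc_zero' (F : Fin 4) : fc q 0 F = 0 := by simp [fc]

include huniq hb

lemma b_shift (j j1 : ZMod q) (x x1 : G) (h : b (0, j, x) = (0, j1, x1)) :
    b (0, j + 1, x) = (0, j1 + 1, x1) := by
  have h1 := b_step huniq b hb 3 0 1 (by decide) (by decide) (by decide) _ _ _ _ h
  have h2 := b_step huniq b hb 2 1 0 (by decide) (by decide) (by decide) _ _ _ _ h1
  have e1 : ∀ j : ZMod q, j - fc q 3 0 + fc q 3 1 - fc q 2 1 + fc q 2 0 = j + 1 := by
    intro j
    simp only [fc]
    norm_num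
    ring
  rw [e1, e1] at h2
  exact h2

omit huniq hb in
lemma lab_five (F : Fin 4) (j : ZMod q) (h : lab D.e D.gs q 5 F j ≠ 1) : F = 1 ∧ j = 0 := by
  by_contra hne
  apply h
  revert hne
  fin_cases F <;> simp [lab]
  intro h2 h3
  exact absurd h3 h2

omit huniq hb in
lemma lab_five' : lab D.e D.gs q 5 1 0 = D.gs := by
  simp [lab]

lemma b_zero (x : G) : ∃ x1, b (0, 0, x) = (0, 0, x1) := by
  obtain ⟨τ, t0, t1, t3⟩ := perm4_ex 0 2 1 (by decide) (by decide) (by decide)
  obtain ⟨j', x', τ', hl, g0, g1, _⟩ := b_base huniq b hb 5 0 x τ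
    (by rw [t3, lab_five']; exact D.hgs)
  obtain ⟨hF', hj⟩ := lab_five _ _ hl
  rw [t0, t3] at g0
  have e0 : bt (q := q) 1 0 x 0 = (0, 0, x) := by simp [bt, fc_zero]
  rw [e0, hF', hj] at g0
  have hp := b_part huniq b hb (0, 0, x)
  rw [g0] at hp
  have hp' : τ' 0 = 0 := hp
  rw [hp'] at g0
  exact ⟨x', by rw [g0]; simp [bt, fc_zero]⟩

lemma b_zero' (x x1 : G) (h : b (0, 0, x) = (0, 0, x1)) (k : ℕ) :
    b (0, (k : ZMod q), x) = (0, (k : ZMod q), x1) := by
  induction k with
  | zero => simpa using h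
  | succ k ih =>
    have := b_shift huniq b hb _ _ _ _ ih
    push_cast
    exact this

include hq

lemma b_zero'' (x x1 : G) (h : b (0, 0, x) = (0, 0, x1)) (j : ZMod q) :
    b (0, j, x) = (0, j, x1) := by
  have : NeZero q := ⟨by omega⟩
  have := b_zero' huniq b hb x x1 h j.val
  rwa [ZMod.natCast_zmod_val] at this

lemma b_mul (x x1 : G) (h : b (0, 0, x) = (0, 0, x1)) (g : G) :
    b (0, 0, x * g) = (0, 0, x1 * g) := by
  have hj0 : ((D.e g : ℕ) : ZMod q).val = D.e g := by
    apply ZMod.val_cast_of_lt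
    have := (D.e g).2
    omega
  set j : ZMod q := ((D.e g : ℕ) : ZMod q) with hj
  have hgam : gam D.e q j = g := by
    unfold gam
    rw [dif_pos (by rw [hj0]; exact (D.e g).2)]
    have : (⟨j.val, by rw [hj0]; exact (D.e g).2⟩ : Fin (Fintype.card G)) = D.e g :=
      Fin.ext hj0
    rw [this, Equiv.symm_apply_apply]
  have hlab : lab D.e D.gs q 6 1 j = g := by
    simp [lab, hgam]
  obtain ⟨x2, h2⟩ := b_zero huniq b hb (x * g)
  obtain ⟨τ, t0, t1, t3⟩ := perm4_ex 0 3 1 (by decide) (by decide) (by decide)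
  have t2 : τ 2 = 2 := by
    revert t0 t1 t3
    revert τ
    decide
  -- the layer 6 triple
  have key : ∀ y : G, D.PT 6 (0, j + fc q 1 0, y) (3, j + fc q 1 3, y) (2, j + fc q 1 2, y * g) := by
    intro y
    right
    refine ⟨j, y, τ, ?_, ?_, ?_⟩
    · rw [t0, t3]
      simp [tr, lb, dpart]
    · rw [t1, t3]
      simp [tr, lb, dpart]
    · rw [t2, t3]
      simp [tr, lb, dpart, hlab]
  have k1 := (hb _ _ _ _).1 (key x)
  have s0 := b_zero'' hq huniq b hb x x1 h j
  have s2 := b_zero'' hq huniq b hb (x * g) x2 h2 j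
  have s1 := b_step huniq b hb 1 0 3 (by decide) (by decide) (by decide) _ _ _ _ s0
  have s3 := b_step huniq b hb 1 0 2 (by decide) (by decide) (by decide) _ _ _ _ s2
  rw [fc_zero, sub_zero] at s1 s3
  have e0 : j + fc q 1 0 = j := by simp [fc_zero]
  rw [s1, s3, e0, s0] at k1
  have k2 := key x1
  rw [e0] at k2
  have k3 := PT_uniq huniq k1 k2
  simp only [Prod.mk.injEq, true_and] at k3
  rw [h2, k3]

lemma b_final : ∃ a : G, ∀ c j x, b (c, j, x) = (c, j, a * x) := by
  obtain ⟨a, ha⟩ := b_zero huniq b hb 1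
  refine ⟨a, ?_⟩
  have h0 : ∀ j x, b (0, j, x) = (0, j, a * x) := by
    intro j x
    apply b_zero'' hq huniq b hb
    have := b_mul hq huniq b hb 1 a ha x
    rwa [one_mul] at this
  intro c j x
  by_cases hc : c = 0
  · subst hc; exact h0 j x
  · obtain ⟨F, hF0, hFc⟩ : ∃ F : Fin 4, F ≠ 0 ∧ F ≠ c := by
      revert hc
      revert c
      decide
    have := b_step huniq b hb F 0 c (Ne.symm hc) hF0 hFc _ _ _ _ (h0 (j - fc q F c) x)
    rw [fc_zero, sub_zero, sub_add_cancel] at this
    exact this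

end

section
variable (hne : ∀ x y z : HH G q, D.T x y z → x ≠ y)
include hq huniq hne

/-- rigidity of the system of collinear triples modulo left multiplications -/
theorem rigid_T (β : HH G q → HH G q) (βinj : Function.Injective β)
    (hβ : ∀ x y z, D.T x y z ↔ D.T (β x) (β y) (β z)) :
    ∃ a : G, ∀ r c j x, β (r, c, j, x) = (r, c, j, a * x) := by
  classical
  have hK : ∀ (P : LL G q) (r r' : Fin 15), r ≠ r' → D.T (r, P) (r', P) (rtab r r', P) := by
    intro P r r' h
    rw [T_iff]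
    exact .inl ⟨rfl, rfl, h, rfl⟩
  have hcl : ∀ (P : LL G q) (r r' : Fin 15), (β (r, P)).2 = (β (r', P)).2 := by
    intro P r r'
    apply cluster hq hne (fun r => β (r, P))
    · intro u v huv
      exact (Prod.mk.inj (βinj huv)).1
    · intro u v huv
      exact (hβ _ _ _).1 (hK P u v huv)
  have hid : ∀ (P : LL G q) (r : Fin 15), (β (r, P)).1 = r := by
    intro P
    apply rigid15 (fun r => (β (r, P)).1)
    · intro u v huv
      have : β (u, P) = β (v, P) := Prod.ext huv (hcl P u v)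
      exact (Prod.mk.inj (βinj this)).1
    · intro u v
      by_cases huv : u = v
      · subst huv
        rw [rtab_squag.idem, rtab_squag.idem]
      · have h1 := (hβ _ _ _).1 (hK P u v huv)
        exact (T_eq hne h1 (hcl P u v)).2
  have hform : ∀ (P : LL G q) (r : Fin 15), β (r, P) = (r, (β (0, P)).2) := by
    intro P r
    exact Prod.ext (hid P r) (hcl P r 0)
  obtain ⟨a, ha⟩ := b_final hq huniq (fun P => (β (0, P)).2) (by
    intro r P P' P''
    rw [← T_layer, ← T_layer, hβ, hform P, hform P', hform P''])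
  exact ⟨a, fun r c j x => by rw [hform, ha]⟩

end

end Dat

end Pool.Agent.Lib_helper60.Sts
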